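import Pool.Agent.TH311.Rioul.Zak

/-!
# Zak transforms of refinable functions: basic identities
-/

open Filter Topology Complex

namespace Pool.Agent.Y796.RI

open Pool.Agent.TH311.Rioul

/-- the character `exp (2 π i k ξ)` -/
noncomputable def ch (k : ℤ) (ξ : ℝ) : ℂ := exp (2 * (Real.pi : ℂ) * I * k * ξ)

lemma ch_zero (ξ : ℝ) : ch 0 ξ = 1 := by simp [ch]

lemma ch_zero' (k : ℤ) : ch k 0 = 1 := by simp [ch]

lemma ch_ne (k : ℤ) (ξ : ℝ) : ch k ξ ≠ 0 := exp_ne_zero _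

lemma ch_add (k l : ℤ) (ξ : ℝ) : ch (k + l) ξ = ch k ξ * ch l ξ := by
  unfold ch
  rw [← Complex.exp_add]
  congr 1
  push_cast
  ring

lemma ch_add' (k : ℤ) (ξ η : ℝ) : ch k (ξ + η) = ch k ξ * ch k η := by
  unfold ch
  rw [← Complex.exp_add]
  congr 1
  push_cast
  ring

lemma ch_int (k n : ℤ) : ch k (n : ℝ) = 1 := by
  unfold ch
  have : 2 * (Real.pi : ℂ) * I * k * ((n : ℝ) : ℂ) = ((k * n : ℤ) : ℂ) * (2 * (Real.pi : ℂ) * I) := by
    push_cast; ring
  rw [this, Complex.exp_int_mul_two_pi_mul_I]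

lemma ch_add_int (k : ℤ) (ξ : ℝ) (n : ℤ) : ch k (ξ + n) = ch k ξ := by
  rw [ch_add', ch_int, mul_one]

lemma norm_ch (k : ℤ) (ξ : ℝ) : ‖ch k ξ‖ = 1 := by
  unfold ch
  have : 2 * (Real.pi : ℂ) * I * k * ξ = ((2 * Real.pi * k * ξ : ℝ) : ℂ) * I := by
    push_cast; ring
  rw [this, Complex.norm_exp_ofReal_mul_I]

lemma ch_mul (k l : ℤ) (ξ : ℝ) : ch (k * l) ξ = ch k (l * ξ) := by
  unfold ch
  congr 1
  push_cast
  ring

lemma ch_two_half (k : ℤ) (ξ : ℝ) : ch (2 * k) (ξ / 2) = ch k ξ := by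
  unfold ch
  congr 1
  push_cast
  ring

lemma ch_half_even (k : ℤ) : ch (2 * k) (1 / 2) = 1 := by
  rw [show (1 / 2 : ℝ) = 1 / 2 from rfl, ch_two_half]
  exact_mod_cast ch_int k 1

lemma ch_one_half : ch 1 (1 / 2) = -1 := by
  unfold ch
  have : 2 * (Real.pi : ℂ) * I * ((1 : ℤ) : ℂ) * ((1 / 2 : ℝ) : ℂ) = (Real.pi : ℂ) * I := by
    push_cast; ring
  rw [this, Complex.exp_pi_mul_I]

lemma ch_half_odd (k : ℤ) : ch (2 * k + 1) (1 / 2) = -1 := by
  rw [ch_add, ch_half_even, ch_one_half, one_mul]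

lemma zak_eq (f : ℝ → ℂ) (t ξ : ℝ) : zak f t ξ = ∑' k : ℤ, f (t + k) * ch k ξ := rfl

lemma symbol_eq (d : ℤ →₀ ℂ) (ξ : ℝ) : symbol d ξ = d.sum fun k c => c * ch k ξ := rfl

lemma symbol_add_int (d : ℤ →₀ ℂ) (ξ : ℝ) (n : ℤ) : symbol d (ξ + n) = symbol d ξ := by
  rw [symbol_eq, symbol_eq]
  unfold Finsupp.sum
  refine Finset.sum_congr rfl fun k _ => ?_
  show d k * ch k (ξ + n) = d k * ch k ξ
  rw [ch_add_int]

/-- finite support in the integer variable -/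
lemma supp_finite {φ : ℝ → ℂ} (hc : HasCompactSupport φ) (t : ℝ) (s : ℝ) (hs : s ≠ 0) :
    (Function.support fun k : ℤ => φ (t + s * k)).Finite := by
  obtain ⟨R, hR⟩ := hc.isCompact.isBounded.subset_closedBall 0
  have h1 : ∀ x : ℝ, φ x ≠ 0 → |x| ≤ R := by
    intro x hx
    have h2 := hR (subset_tsupport φ hx)
    simpa [Metric.mem_closedBall, Real.dist_eq] using h2
  refine (Set.finite_Icc (⌊-((R + |t|) / |s|)⌋) ⌈(R + |t|) / |s|⌉).subset ?_
  intro k hk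
  have h3 := h1 _ hk
  have hs' : 0 < |s| := abs_pos.2 hs
  have h4 : |s * (k : ℝ)| ≤ R + |t| := by
    have : s * (k : ℝ) = (t + s * k) - t := by ring
    rw [this]
    exact (abs_sub _ _).trans (by linarith)
  rw [abs_mul] at h4
  have h5 : |(k : ℝ)| ≤ (R + |t|) / |s| := by
    rw [le_div_iff₀ hs']; linarith
  rw [abs_le] at h5
  constructor
  · have : (⌊-((R + |t|) / |s|)⌋ : ℝ) ≤ k := (Int.floor_le _).trans h5.1
    exact_mod_cast this
  · have : (k : ℝ) ≤ ⌈(R + |t|) / |s|⌉ := h5.2.trans (Int.le_ceil _)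
    exact_mod_cast this

lemma supp_finite_one {φ : ℝ → ℂ} (hc : HasCompactSupport φ) (t : ℝ) :
    (Function.support fun k : ℤ => φ (t + k)).Finite := by
  have := supp_finite hc t 1 one_ne_zero
  simpa using this

lemma zak_summable {φ : ℝ → ℂ} (hc : HasCompactSupport φ) (t ξ : ℝ) :
    Summable fun k : ℤ => φ (t + k) * ch k ξ := by
  apply summable_of_hasFiniteSupport
  refine (supp_finite_one hc t).subset ?_
  intro k hk
  rw [Function.mem_support] at hk ⊢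
  exact left_ne_zero_of_mul hk

lemma zak_add_one (φ : ℝ → ℂ) (t ξ : ℝ) : zak φ (t + 1) ξ = ch (-1) ξ * zak φ t ξ := by
  rw [zak_eq, zak_eq, ← tsum_mul_left]
  rw [← (Equiv.addRight (-1 : ℤ)).tsum_eq fun k : ℤ => φ (t + 1 + k) * ch k ξ]
  refine tsum_congr fun k => ?_
  simp only [Equiv.coe_addRight]
  rw [ch_add]
  push_cast
  rw [show t + 1 + ((k : ℝ) + -1) = t + k by ring]
  ring

lemma zak_add_int (φ : ℝ → ℂ) (t ξ : ℝ) (n : ℤ) : zak φ t (ξ + n) = zak φ t ξ := by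
  rw [zak_eq, zak_eq]
  refine tsum_congr fun k => ?_
  rw [ch_add_int]

/-- the product of the symbol with a Zak transform -/
lemma symbol_mul_zak {φ : ℝ → ℂ} (hc : HasCompactSupport φ) {d : ℤ →₀ ℂ}
    (hd : Dilation φ d) (t η : ℝ) :
    symbol d η * zak φ (2 * t) η = ∑' n : ℤ, φ (t + n / 2) * ch n η := by
  have h1 : ∀ n : ℤ, φ (t + n / 2) * ch n η =
      d.sum fun k c => c * (φ (2 * t + n - k) * ch n η) := by
    intro n
    have h2 := hd (2 * t + n)
    rw [show (2 * t + (n : ℝ)) / 2 = t + n / 2 by ring] at h2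
    rw [h2]
    unfold Finsupp.sum
    rw [Finset.sum_mul]
    refine Finset.sum_congr rfl fun k _ => ?_
    ring
  have h3 : ∀ k : ℤ, Summable fun n : ℤ => φ (2 * t + n - k) * ch n η := by
    intro k
    have := zak_summable hc (2 * t - k) η
    refine this.congr fun n => ?_
    rw [show 2 * t + (n : ℝ) - k = 2 * t - k + n by ring]
  have h4 : ∀ k : ℤ, ∑' n : ℤ, φ (2 * t + n - k) * ch n η = ch k η * zak φ (2 * t) η := by
    intro k
    rw [zak_eq, ← tsum_mul_left,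
      ← (Equiv.addRight k).tsum_eq fun n : ℤ => φ (2 * t + n - k) * ch n η]
    refine tsum_congr fun n => ?_
    simp only [Equiv.coe_addRight]
    rw [ch_add]
    push_cast
    rw [show 2 * t + ((n : ℝ) + k) - k = 2 * t + n by ring]
    ring
  rw [tsum_congr h1]
  unfold Finsupp.sum
  rw [Summable.tsum_finsetSum (fun k _ => (h3 k).mul_left _), symbol_eq]
  unfold Finsupp.sum
  rw [Finset.sum_mul]
  refine Finset.sum_congr rfl fun k _ => ?_
  rw [tsum_mul_left, h4]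
  ring

lemma half_summable {φ : ℝ → ℂ} (hc : HasCompactSupport φ) (t η : ℝ) :
    Summable fun n : ℤ => φ (t + n / 2) * ch n η := by
  apply summable_of_hasFiniteSupport
  refine (supp_finite hc t (1 / 2) (by norm_num)).subset ?_
  intro k hk
  rw [Function.mem_support] at hk ⊢
  have := left_ne_zero_of_mul hk
  rwa [show t + 1 / 2 * (k : ℝ) = t + k / 2 by ring]

/-- even part -/
lemma zak_even {φ : ℝ → ℂ} (hc : HasCompactSupport φ) {d : ℤ →₀ ℂ}
    (hd : Dilation φ d) (t ξ : ℝ) :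
    2 * zak φ t ξ = symbol d (ξ / 2) * zak φ (2 * t) (ξ / 2) +
      symbol d (ξ / 2 + 1 / 2) * zak φ (2 * t) (ξ / 2 + 1 / 2) := by
  rw [symbol_mul_zak hc hd, symbol_mul_zak hc hd,
    ← (half_summable hc t (ξ / 2)).tsum_add (half_summable hc t (ξ / 2 + 1 / 2)), zak_eq,
    ← tsum_mul_left]
  have hinj : Function.Injective fun m : ℤ => 2 * m := fun a b h => by
    simpa using h
  have key := hinj.tsum_eq (f := fun n : ℤ => φ (t + n / 2) * ch n (ξ / 2) +
    φ (t + n / 2) * ch n (ξ / 2 + 1 / 2)) (by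
      intro n hn
      rw [Function.mem_support] at hn
      rcases Int.even_or_odd' n with ⟨m, rfl | rfl⟩
      · exact ⟨m, rfl⟩
      · exfalso
        apply hn
        rw [ch_add', ch_half_odd]
        ring)
  rw [← key]
  refine tsum_congr fun m => ?_
  show _ = φ (t + (2 * m : ℤ) / 2) * ch (2 * m) (ξ / 2) +
    φ (t + (2 * m : ℤ) / 2) * ch (2 * m) (ξ / 2 + 1 / 2)
  rw [ch_add', ch_two_half, ch_half_even]
  push_cast
  rw [show t + 2 * (m : ℝ) / 2 = t + m by ring]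
  ring

/-- odd part -/
lemma zak_odd {φ : ℝ → ℂ} (hc : HasCompactSupport φ) {d : ℤ →₀ ℂ}
    (hd : Dilation φ d) (t ξ : ℝ) :
    2 * ch 1 (ξ / 2) * zak φ (t + 1 / 2) ξ = symbol d (ξ / 2) * zak φ (2 * t) (ξ / 2) -
      symbol d (ξ / 2 + 1 / 2) * zak φ (2 * t) (ξ / 2 + 1 / 2) := by
  rw [symbol_mul_zak hc hd, symbol_mul_zak hc hd,
    ← (half_summable hc t (ξ / 2)).tsum_sub (half_summable hc t (ξ / 2 + 1 / 2)), zak_eq,
    ← tsum_mul_left]
  have hinj : Function.Injective fun m : ℤ => 2 * m + 1 := fun a b h => by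
    simpa using h
  have key := hinj.tsum_eq (f := fun n : ℤ => φ (t + n / 2) * ch n (ξ / 2) -
    φ (t + n / 2) * ch n (ξ / 2 + 1 / 2)) (by
      intro n hn
      rw [Function.mem_support] at hn
      rcases Int.even_or_odd' n with ⟨m, rfl | rfl⟩
      · exfalso
        apply hn
        rw [ch_add', ch_half_even]
        ring
      · exact ⟨m, rfl⟩)
  rw [← key]
  refine tsum_congr fun m => ?_
  show _ = φ (t + (2 * m + 1 : ℤ) / 2) * ch (2 * m + 1) (ξ / 2) -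
    φ (t + (2 * m + 1 : ℤ) / 2) * ch (2 * m + 1) (ξ / 2 + 1 / 2)
  rw [ch_add', ch_half_odd, ch_add, ch_two_half]
  push_cast
  rw [show t + (2 * (m : ℝ) + 1) / 2 = t + 1 / 2 + m by ring]
  ring

/-- local finiteness -/
lemma exists_finset {φ : ℝ → ℂ} (hc : HasCompactSupport φ) (B : ℝ) :
    ∃ S : Finset ℤ, ∀ t : ℝ, |t| ≤ B → ∀ k : ℤ, k ∉ S → φ (t + k) = 0 := by
  obtain ⟨R, hR⟩ := hc.isCompact.isBounded.subset_closedBall 0
  have h1 : ∀ x : ℝ, φ x ≠ 0 → |x| ≤ R := by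
    intro x hx
    have h2 := hR (subset_tsupport φ hx)
    simpa [Metric.mem_closedBall, Real.dist_eq] using h2
  refine ⟨Finset.Icc (-⌈R + B⌉) ⌈R + B⌉, fun t ht k hk => ?_⟩
  by_contra h
  have h2 := h1 _ h
  apply hk
  have h3 : |(k : ℝ)| ≤ R + B := by
    have : (k : ℝ) = (t + k) - t := by ring
    rw [this]
    exact (abs_sub _ _).trans (by linarith)
  rw [abs_le] at h3
  have h4 := Int.le_ceil (R + B)
  rw [Finset.mem_Icc]
  constructor
  · have : ((-⌈R + B⌉ : ℤ) : ℝ) ≤ k := by push_cast; linarith [h3.1]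
    exact_mod_cast this
  · have : (k : ℝ) ≤ (⌈R + B⌉ : ℤ) := by linarith [h3.2]
    exact_mod_cast this

lemma zak_eq_sum {φ : ℝ → ℂ} {B : ℝ} {S : Finset ℤ}
    (hS : ∀ t : ℝ, |t| ≤ B → ∀ k : ℤ, k ∉ S → φ (t + k) = 0) {t : ℝ} (ht : |t| ≤ B) (ξ : ℝ) :
    zak φ t ξ = ∑ k ∈ S, φ (t + k) * ch k ξ := by
  rw [zak_eq]
  apply tsum_eq_sum
  intro k hk
  rw [hS t ht k hk, zero_mul]

lemma zak_continuous {φ : ℝ → ℂ} (h : Continuous φ) (hc : HasCompactSupport φ) (ξ : ℝ) :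
    Continuous fun t => zak φ t ξ := by
  rw [continuous_iff_continuousAt]
  intro t₀
  obtain ⟨S, hS⟩ := exists_finset hc (|t₀| + 1)
  have h1 : (fun t => zak φ t ξ) =ᶠ[𝓝 t₀] fun t => ∑ k ∈ S, φ (t + k) * ch k ξ := by
    have : ∀ᶠ t in 𝓝 t₀, |t| < |t₀| + 1 :=
      (continuous_abs.continuousAt).eventually (gt_mem_nhds (by linarith))
    filter_upwards [this] with t ht
    exact zak_eq_sum hS ht.le ξ
  rw [continuousAt_congr h1]
  apply Continuous.continuousAt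
  fun_prop

end Pool.Agent.Y796.RI
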