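import Pool.Agent.Y796.RI.Basic

/-!
# Classification of the lines on which the Zak transform vanishes
-/

open Filter Topology Complex

namespace Pool.Agent.Y796.RI

open Pool.Agent.TH311.Rioul

/-- `ξ` lies on a cycle of the doubling map modulo one, all of whose half shifts are zeros of the
symbol. -/
def CyclicZero (d : ℤ →₀ ℂ) (ξ : ℝ) : Prop :=
  ∃ n : ℕ, 0 < n ∧ (∃ k : ℤ, 2 ^ n * ξ - ξ = k) ∧ ∀ i < n, symbol d (2 ^ i * ξ + 1 / 2) = 0

lemma ch_one_injOn : Set.InjOn (fun ξ : ℝ => ch 1 ξ) (Set.Ico 0 1) := by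
  intro x hx y hy h
  have h1 : exp (2 * (Real.pi : ℂ) * I * ((1 : ℤ) : ℂ) * x) =
    exp (2 * (Real.pi : ℂ) * I * ((1 : ℤ) : ℂ) * y) := h
  rw [Complex.exp_eq_exp_iff_exists_int] at h1
  obtain ⟨n, hn⟩ := h1
  have h2 : (2 * (Real.pi : ℂ) * I) * ((x : ℂ) - y - n) = 0 := by
    push_cast at hn
    linear_combination hn
  rcases mul_eq_zero.1 h2 with h3 | h3
  · exact absurd h3 Complex.two_pi_I_ne_zero
  · have h4 : x - y - n = 0 := by exact_mod_cast h3
    have h5 : -1 < (n : ℝ) := by linarith [hx.1, hx.2, hy.1, hy.2]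
    have h6 : (n : ℝ) < 1 := by linarith [hx.1, hx.2, hy.1, hy.2]
    have h7 : n = 0 := by
      have h8 : -1 < n := by exact_mod_cast h5
      have h9 : n < 1 := by exact_mod_cast h6
      omega
    rw [h7] at h4
    push_cast at h4
    linarith

/-- a nonzero trigonometric polynomial has finitely many zeros in a period -/
lemma symbol_zeros_finite {a : ℤ →₀ ℂ} (ha : a ≠ 0) :
    {ξ : ℝ | ξ ∈ Set.Ico (0 : ℝ) 1 ∧ symbol a ξ = 0}.Finite := by
  classical
  obtain ⟨N, hN⟩ : ∃ N : ℕ, ∀ k ∈ a.support, 0 ≤ k + (N : ℤ) := by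
    refine ⟨∑ k ∈ a.support, k.natAbs, fun k hk => ?_⟩
    have h1 : k.natAbs ≤ ∑ k ∈ a.support, k.natAbs :=
      Finset.single_le_sum (f := fun k : ℤ => k.natAbs) (fun _ _ => Nat.zero_le _) hk
    have h2 : -(k.natAbs : ℤ) ≤ k := by omega
    have h3 : (k.natAbs : ℤ) ≤ ((∑ k ∈ a.support, k.natAbs : ℕ) : ℤ) := by exact_mod_cast h1
    omega
  let Q : Polynomial ℂ := ∑ k ∈ a.support, Polynomial.C (a k) * Polynomial.X ^ (k + N).toNat
  have hQ : Q ≠ 0 := by
    obtain ⟨k₀, hk₀⟩ := Finsupp.support_nonempty_iff.2 ha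
    intro h
    have h1 : Q.coeff (k₀ + N).toNat = a k₀ := by
      simp only [Q, Polynomial.finsetSum_coeff, Polynomial.coeff_C_mul, Polynomial.coeff_X_pow]
      rw [Finset.sum_eq_single k₀]
      · simp
      · intro k hk hne
        rw [if_neg, mul_zero]
        intro h2
        apply hne
        have h3 := hN k hk
        have h4 := hN k₀ hk₀
        omega
      · intro h2
        exact absurd hk₀ h2
    rw [h, Polynomial.coeff_zero] at h1
    exact (Finsupp.mem_support_iff.1 hk₀) h1.symm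
  have hev : ∀ ξ : ℝ, Q.eval (ch 1 ξ) = ch N ξ * symbol a ξ := by
    intro ξ
    rw [symbol_eq]
    unfold Finsupp.sum
    rw [Finset.mul_sum]
    simp only [Q, Polynomial.eval_finsetSum, Polynomial.eval_mul, Polynomial.eval_C,
      Polynomial.eval_pow, Polynomial.eval_X]
    refine Finset.sum_congr rfl fun k hk => ?_
    have h1 : ch 1 ξ ^ (k + N).toNat = ch (k + N) ξ := by
      have h2 : ((k + N).toNat : ℤ) = k + N := Int.toNat_of_nonneg (hN k hk)
      generalize (k + N).toNat = p at h2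
      rw [← h2]
      unfold ch
      rw [← Complex.exp_nat_mul]
      congr 1
      push_cast
      ring
    rw [h1, ch_add]
    ring
  have hfin : (Q.roots.toFinset : Set ℂ).Finite := Finset.finite_toSet _
  refine Set.Finite.of_injOn (f := fun ξ : ℝ => ch 1 ξ) ?_
    (ch_one_injOn.mono fun ξ hξ => hξ.1) hfin
  intro ξ hξ
  simp only [Finset.mem_coe, Multiset.mem_toFinset]
  rw [Polynomial.mem_roots hQ, Polynomial.IsRoot, hev, hξ.2, mul_zero]

/-- the set of frequencies whose whole line is a zero line -/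
def Line (φ : ℝ → ℂ) (ξ : ℝ) : Prop := ∀ t : ℝ, zak φ t ξ = 0

lemma line_add_int (φ : ℝ → ℂ) (ξ : ℝ) (n : ℤ) : Line φ (ξ + n) ↔ Line φ ξ := by
  unfold Line
  simp only [zak_add_int]

lemma line_fract (φ : ℝ → ℂ) (ξ : ℝ) : Line φ (Int.fract ξ) ↔ Line φ ξ := by
  have : ξ = Int.fract ξ + (⌊ξ⌋ : ℤ) := (Int.fract_add_floor ξ).symm
  conv_rhs => rw [this]
  exact (line_add_int φ _ _).symm

lemma line_finite {φ : ℝ → ℂ} (hc : HasCompactSupport φ) (h0 : φ ≠ 0) :
    {ξ : ℝ | ξ ∈ Set.Ico (0 : ℝ) 1 ∧ Line φ ξ}.Finite := by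
  classical
  obtain ⟨t₀, ht₀⟩ : ∃ t₀, φ t₀ ≠ 0 := by
    by_contra h
    push Not at h
    exact h0 (funext h)
  have hfin := supp_finite_one hc t₀
  let a : ℤ →₀ ℂ := Finsupp.ofSupportFinite (fun k : ℤ => φ (t₀ + k)) hfin
  have ha : a ≠ 0 := by
    intro h
    have h1 : a 0 = φ t₀ := by
      show φ (t₀ + ((0 : ℤ) : ℝ)) = φ t₀
      simp
    rw [h] at h1
    exact ht₀ h1.symm
  refine (symbol_zeros_finite ha).subset ?_
  intro ξ hξ
  refine ⟨hξ.1, ?_⟩
  rw [← hξ.2 t₀, zak_eq, symbol_eq]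
  unfold Finsupp.sum
  rw [tsum_eq_sum (s := a.support)]
  · rfl
  · intro k hk
    have : a k = 0 := by simpa using hk
    have h2 : φ (t₀ + k) = 0 := this
    rw [h2, zero_mul]

/-- the two halves of a zero line -/
lemma line_halves {φ : ℝ → ℂ} (hc : HasCompactSupport φ) {d : ℤ →₀ ℂ} (hd : Dilation φ d)
    {ξ : ℝ} (h : Line φ ξ) :
    (∀ t, symbol d (ξ / 2) * zak φ t (ξ / 2) = 0) ∧
    (∀ t, symbol d (ξ / 2 + 1 / 2) * zak φ t (ξ / 2 + 1 / 2) = 0) := by
  have h1 : ∀ t, symbol d (ξ / 2) * zak φ (2 * t) (ξ / 2) = 0 ∧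
      symbol d (ξ / 2 + 1 / 2) * zak φ (2 * t) (ξ / 2 + 1 / 2) = 0 := by
    intro t
    have h2 := zak_even hc hd t ξ
    have h3 := zak_odd hc hd t ξ
    rw [h t, mul_zero] at h2
    rw [h (t + 1 / 2), mul_zero] at h3
    constructor
    · linear_combination (-1 / 2 : ℂ) * h2 - (1 / 2 : ℂ) * h3
    · linear_combination (-1 / 2 : ℂ) * h2 + (1 / 2 : ℂ) * h3
  constructor
  · intro t
    have := (h1 (t / 2)).1
    rwa [show 2 * (t / 2) = t by ring] at this
  · intro t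
    have := (h1 (t / 2)).2
    rwa [show 2 * (t / 2) = t by ring] at this

/-- A finite set that is contained in its image under `f` is permuted by `f`. -/
lemma perm_of_subset_image {α : Type*} [DecidableEq α] (G : Finset α) (f : α → α)
    (h : G ⊆ G.image f) :
    (∀ x ∈ G, f x ∈ G) ∧ (∀ x ∈ G, ∀ y ∈ G, f x = f y → x = y) ∧
    ∀ x ∈ G, ∃ n : ℕ, 0 < n ∧ f^[n] x = x := by
  have h1 : G.image f = G := (Finset.eq_of_subset_of_card_le h Finset.card_image_le).symm
  have h2 : ∀ x ∈ G, f x ∈ G := fun x hx => by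
    rw [← h1]
    exact Finset.mem_image_of_mem f hx
  have h3 : Set.InjOn f G := Finset.card_image_iff.1 (by rw [h1])
  refine ⟨h2, fun x hx y hy hxy => h3 hx hy hxy, fun x hx => ?_⟩
  let σ : G → G := fun y => ⟨f y, h2 y y.2⟩
  have hσ : Function.Injective σ := by
    intro a b hab
    apply Subtype.ext
    exact h3 a.2 b.2 (by simpa [σ] using hab)
  have hit : ∀ n (y : G), ((σ^[n] y : G) : α) = f^[n] y := by
    intro n
    induction n with
    | zero => intro y; rfl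
    | succ n ih =>
      intro y
      rw [Function.iterate_succ_apply, Function.iterate_succ_apply, ih]
  -- pigeonhole
  obtain ⟨a, b, hab, he⟩ := Finite.exists_ne_map_eq_of_infinite (fun n : ℕ => σ^[n] ⟨x, hx⟩)
  wlog hlt : a < b generalizing a b
  · exact this b a (Ne.symm hab) he.symm (lt_of_le_of_ne (not_lt.1 hlt) (Ne.symm hab))
  refine ⟨b - a, by omega, ?_⟩
  have h4 : σ^[a] (σ^[b - a] ⟨x, hx⟩) = σ^[a] ⟨x, hx⟩ := by
    rw [← Function.iterate_add_apply, show a + (b - a) = b by omega]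
    exact he.symm
  have h5 := (hσ.iterate a) h4
  have h6 := congrArg (fun y : G => (y : α)) h5
  simp only at h6
  rw [hit] at h6
  exact h6

lemma fract_iter (x : ℝ) (n : ℕ) :
    ∃ k : ℤ, (fun y : ℝ => Int.fract (2 * y))^[n] x = 2 ^ n * x + k ∨
      (n = 0 ∧ (fun y : ℝ => Int.fract (2 * y))^[n] x = x) := by
  induction n with
  | zero => exact ⟨0, Or.inr ⟨rfl, rfl⟩⟩
  | succ n ih =>
    obtain ⟨k, hk⟩ := ih
    have hk' : ∃ k : ℤ, (fun y : ℝ => Int.fract (2 * y))^[n] x = 2 ^ n * x + k := by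
      rcases hk with hk | ⟨rfl, hk⟩
      · exact ⟨k, hk⟩
      · exact ⟨0, by rw [hk]; simp⟩
    obtain ⟨k, hk⟩ := hk'
    rw [Function.iterate_succ_apply', hk]
    refine ⟨2 * k - ⌊2 * (2 ^ n * x + k)⌋, Or.inl ?_⟩
    rw [Int.fract]
    push_cast
    ring

lemma fract_iter' (x : ℝ) (n : ℕ) :
    ∃ k : ℤ, (fun y : ℝ => Int.fract (2 * y))^[n] x = 2 ^ n * x + k := by
  obtain ⟨k, hk⟩ := fract_iter x n
  rcases hk with hk | ⟨rfl, hk⟩
  · exact ⟨k, hk⟩
  · exact ⟨0, by rw [hk]; simp⟩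

/-- Abstract form of the cycle argument: a property of frequencies that holds at finitely many
points of a period and is inherited by the halves at which the symbol does not vanish holds only
at cyclic zeros. -/
theorem cyclic_abstract {d : ℤ →₀ ℂ} (hns : ¬ SymmetricZeros d) (P : ℝ → Prop)
    (hper : ∀ (ξ : ℝ) (n : ℤ), P (ξ + n) ↔ P ξ)
    (hfin : {ξ : ℝ | ξ ∈ Set.Ico (0 : ℝ) 1 ∧ P ξ}.Finite)
    (hhalf : ∀ ξ, P ξ → (symbol d (ξ / 2) = 0 ∨ P (ξ / 2)) ∧
      (symbol d (ξ / 2 + 1 / 2) = 0 ∨ P (ξ / 2 + 1 / 2))) {ξ : ℝ} (h : P ξ) : CyclicZero d ξ := by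
  classical
  have hfract : ∀ ξ, P (Int.fract ξ) ↔ P ξ := by
    intro ξ
    have h1 := hper (Int.fract ξ) ⌊ξ⌋
    rw [Int.fract_add_floor] at h1
    exact h1.symm
  set G : Finset ℝ := hfin.toFinset with hG
  have hmem : ∀ x, x ∈ G ↔ (x ∈ Set.Ico (0 : ℝ) 1 ∧ P x) := by
    intro x; rw [hG, Set.Finite.mem_toFinset]; rfl
  let f : ℝ → ℝ := fun y => Int.fract (2 * y)
  have hor : ∀ x, 0 ≤ x → x < 1 → P x → P (x / 2) ∨ P (x / 2 + 1 / 2) := by
    intro x h0 h1 hx
    by_contra hcon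
    push Not at hcon
    obtain ⟨ha, hb⟩ := hhalf x hx
    exact hns ⟨x / 2, by linarith, by linarith, ha.resolve_right hcon.1,
      hb.resolve_right hcon.2⟩
  have hsub : G ⊆ G.image f := by
    intro x hx
    rw [hmem] at hx
    rw [Finset.mem_image]
    rcases hor x hx.1.1 hx.1.2 hx.2 with h1 | h1
    · refine ⟨x / 2, (hmem _).2 ⟨⟨by linarith [hx.1.1], by linarith [hx.1.2]⟩, h1⟩, ?_⟩
      show Int.fract (2 * (x / 2)) = x
      rw [show 2 * (x / 2) = x by ring, Int.fract_eq_self]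
      exact ⟨hx.1.1, hx.1.2⟩
    · refine ⟨x / 2 + 1 / 2, (hmem _).2 ⟨⟨by linarith [hx.1.1], by linarith [hx.1.2]⟩, h1⟩, ?_⟩
      show Int.fract (2 * (x / 2 + 1 / 2)) = x
      rw [show 2 * (x / 2 + 1 / 2) = x + 1 by ring, Int.fract_add_one, Int.fract_eq_self]
      exact ⟨hx.1.1, hx.1.2⟩
  obtain ⟨hmap, hinj, hperiod⟩ := perm_of_subset_image G f hsub
  -- the half shift of a point of G is a zero of the symbol
  have hzero : ∀ x ∈ G, symbol d (x + 1 / 2) = 0 := by
    intro x hx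
    have hx' := (hmem x).1 hx
    have h2x : P (2 * x) := by
      have h1 := ((hmem _).1 (hmap x hx)).2
      exact (hfract _).1 h1
    obtain ⟨-, hb⟩ := hhalf _ h2x
    rw [show 2 * x / 2 = x by ring] at hb
    by_contra hne
    have h3 : P (x + 1 / 2) := hb.resolve_left hne
    have h4 : Int.fract (x + 1 / 2) ∈ G :=
      (hmem _).2 ⟨⟨Int.fract_nonneg _, Int.fract_lt_one _⟩, (hfract _).2 h3⟩
    have h5 : f (Int.fract (x + 1 / 2)) = f x := by
      show Int.fract (2 * Int.fract (x + 1 / 2)) = Int.fract (2 * x)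
      rw [Int.fract_eq_fract]
      refine ⟨1 - 2 * ⌊x + 1 / 2⌋, ?_⟩
      rw [Int.fract]
      push_cast
      ring
    have h6 := hinj _ h4 _ hx h5
    have h7 : (x + 1 / 2) - ⌊x + 1 / 2⌋ = x := h6
    have h8 : ((⌊x + 1 / 2⌋ : ℤ) : ℝ) = 1 / 2 := by linarith
    have h9 : ((2 * ⌊x + 1 / 2⌋ : ℤ) : ℝ) = ((1 : ℤ) : ℝ) := by push_cast; linarith
    have h10 : 2 * ⌊x + 1 / 2⌋ = 1 := by exact_mod_cast h9
    omega
  have hx₀ : Int.fract ξ ∈ G :=
    (hmem _).2 ⟨⟨Int.fract_nonneg _, Int.fract_lt_one _⟩, (hfract _).2 h⟩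
  obtain ⟨n, hn, hnx⟩ := hperiod _ hx₀
  refine ⟨n, hn, ?_, ?_⟩
  · obtain ⟨k, hk⟩ := fract_iter' (Int.fract ξ) n
    have h1 : 2 ^ n * Int.fract ξ + k = Int.fract ξ := hk.symm.trans hnx
    rw [Int.fract] at h1
    refine ⟨2 ^ n * ⌊ξ⌋ - k - ⌊ξ⌋, ?_⟩
    push_cast
    linarith
  · intro i _
    obtain ⟨k, hk⟩ := fract_iter' (Int.fract ξ) i
    have hiter : ∀ j : ℕ, f^[j] (Int.fract ξ) ∈ G := by
      intro j
      induction j with
      | zero => exact hx₀
      | succ j ih =>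
        rw [Function.iterate_succ_apply']
        exact hmap _ ih
    have h1 := hzero _ (hiter i)
    have h2 : f^[i] (Int.fract ξ) = 2 ^ i * Int.fract ξ + k := hk
    rw [h2, Int.fract] at h1
    have h3 : 2 ^ i * ξ + 1 / 2 = (2 ^ i * (ξ - ⌊ξ⌋) + k + 1 / 2) + ((2 ^ i * ⌊ξ⌋ - k : ℤ) : ℝ) := by
      push_cast
      ring
    rw [h3, symbol_add_int]
    exact h1

/-- zero lines come from cyclic zeros -/
theorem cyclic_of_line {φ : ℝ → ℂ} (hc : HasCompactSupport φ) (hφ : φ ≠ 0) {d : ℤ →₀ ℂ}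
    (hd : Dilation φ d) (hns : ¬ SymmetricZeros d) {ξ : ℝ} (h : Line φ ξ) : CyclicZero d ξ := by
  refine cyclic_abstract hns (Line φ) (line_add_int φ) (line_finite hc hφ) ?_ h
  intro ξ hξ
  obtain ⟨ha, hb⟩ := line_halves hc hd hξ
  constructor
  · by_cases h1 : symbol d (ξ / 2) = 0
    · exact Or.inl h1
    · exact Or.inr fun t => (mul_eq_zero.1 (ha t)).resolve_left h1
  · by_cases h1 : symbol d (ξ / 2 + 1 / 2) = 0
    · exact Or.inl h1
    · exact Or.inr fun t => (mul_eq_zero.1 (hb t)).resolve_left h1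

/-- along a cycle of zeros -/
lemma zak_cycle {φ : ℝ → ℂ} (hc : HasCompactSupport φ) {d : ℤ →₀ ℂ}
    (hd : Dilation φ d) {ξ : ℝ} {n : ℕ} (h : ∀ i < n, symbol d (2 ^ i * ξ + 1 / 2) = 0) :
    ∀ j ≤ n, ∃ c : ℂ, ∀ t : ℝ, zak φ t (2 ^ j * ξ) = c * zak φ (2 ^ j * t) ξ := by
  intro j
  induction j with
  | zero => exact fun _ => ⟨1, fun t => by simp⟩
  | succ j ih =>
    intro hj
    obtain ⟨c, hcc⟩ := ih (by omega)
    refine ⟨symbol d (2 ^ j * ξ) * c / 2, fun t => ?_⟩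
    have h1 := zak_even hc hd t (2 ^ (j + 1) * ξ)
    rw [show (2 : ℝ) ^ (j + 1) * ξ / 2 = 2 ^ j * ξ by ring, h j (by omega), hcc (2 * t),
      show (2 : ℝ) ^ j * (2 * t) = 2 ^ (j + 1) * t by ring] at h1
    linear_combination (1 / 2 : ℂ) * h1

/-- cyclic zeros produce zero lines -/
theorem line_of_cyclic {φ : ℝ → ℂ} (hcont : Continuous φ) (hc : HasCompactSupport φ)
    {d : ℤ →₀ ℂ} (hd : Dilation φ d) {ξ : ℝ} (hξ : ∀ n : ℤ, ξ ≠ n) (h : CyclicZero d ξ) :
    Line φ ξ := by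
  obtain ⟨n, hn, ⟨k, hk⟩, hz⟩ := h
  obtain ⟨c, hcc⟩ := zak_cycle hc hd hz n le_rfl
  set g : ℝ → ℂ := fun t => zak φ t ξ with hg
  have hgc : Continuous g := zak_continuous hcont hc ξ
  set N : ℝ := 2 ^ n with hN
  have hN1 : 2 ≤ N := by
    calc (2 : ℝ) = 2 ^ 1 := by norm_num
      _ ≤ 2 ^ n := pow_le_pow_right₀ (by norm_num) hn
  have hg1 : ∀ t, g t = c * g (N * t) := by
    intro t
    have h1 := hcc t
    rw [show (2 : ℝ) ^ n * ξ = ξ + (k : ℤ) by rw [← hk]; ring, zak_add_int] at h1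
    exact h1
  have hshift : ∀ t, g (t + 1) = ch (-1) ξ * g t := fun t => zak_add_one φ t ξ
  have hnorm : ∀ t, ‖g (t + 1)‖ = ‖g t‖ := by
    intro t; rw [hshift, norm_mul, norm_ch, one_mul]
  have hdown : ∀ (j : ℕ) (s : ℝ), g (s / N ^ j) = c ^ j * g s := by
    intro j
    induction j with
    | zero => intro s; simp
    | succ j ih =>
      intro s
      rw [hg1 (s / N ^ (j + 1)), show N * (s / N ^ (j + 1)) = s / N ^ j by
        rw [pow_succ, div_mul_eq_div_div, mul_div_cancel₀ _ (by positivity)], ih]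
      ring
  have hlim : ∀ s : ℝ, Tendsto (fun j : ℕ => g (s / N ^ j)) atTop (𝓝 (g 0)) := by
    intro s
    have h1 : Tendsto (fun j : ℕ => s / N ^ j) atTop (𝓝 0) :=
      Tendsto.const_div_atTop (tendsto_pow_atTop_atTop_of_one_lt (by linarith)) s
    exact (hgc.tendsto 0).comp h1
  intro s
  show g s = 0
  by_cases hc1 : ‖c‖ < 1
  · -- bounded
    obtain ⟨M, hM⟩ : ∃ M, ∀ t, ‖g t‖ ≤ M := by
      obtain ⟨M, hM⟩ := isCompact_Icc.exists_bound_of_continuousOn
        (s := Set.Icc (0:ℝ) 1) hgc.continuousOn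
      refine ⟨M, fun t => ?_⟩
      have hper : Function.Periodic (fun t => ‖g t‖) 1 := hnorm
      obtain ⟨y, hy, hyt⟩ := hper.exists_mem_Ico₀ one_pos t
      have : ‖g t‖ = ‖g y‖ := hyt
      rw [this]
      exact hM y ⟨hy.1, hy.2.le⟩
    have h1 : ∀ j : ℕ, ‖g s‖ ≤ ‖c‖ ^ j * M := by
      intro j
      have h2 := hdown j (N ^ j * s)
      rw [mul_div_cancel_left₀ _ (by positivity)] at h2
      rw [h2, norm_mul, norm_pow]
      exact mul_le_mul_of_nonneg_left (hM _) (by positivity)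
    have h2 : Tendsto (fun j : ℕ => ‖c‖ ^ j * M) atTop (𝓝 (0 * M)) :=
      (tendsto_pow_atTop_nhds_zero_of_lt_one (norm_nonneg _) hc1).mul_const M
    rw [zero_mul] at h2
    have h3 := ge_of_tendsto' h2 h1
    exact norm_le_zero_iff.1 h3
  · push Not at hc1
    have h0 : g 0 = c * g 0 := by
      have := hg1 0
      rwa [mul_zero] at this
    by_cases hg0 : g 0 = 0
    · have h1 : ∀ j : ℕ, ‖g s‖ ≤ ‖g (s / N ^ j)‖ := by
        intro j
        rw [hdown, norm_mul, norm_pow]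
        exact le_mul_of_one_le_left (norm_nonneg _) (one_le_pow₀ hc1)
      have h2 := ge_of_tendsto' (hlim s).norm h1
      rw [hg0, norm_zero] at h2
      exact norm_le_zero_iff.1 h2
    · exfalso
      have hc2 : c = 1 := by
        have : (c - 1) * g 0 = 0 := by linear_combination -h0
        rcases mul_eq_zero.1 this with h1 | h1
        · exact sub_eq_zero.1 h1
        · exact absurd h1 hg0
      have hconst : ∀ s, g s = g 0 := by
        intro s
        have h1 := hlim s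
        have h2 : (fun j : ℕ => g (s / N ^ j)) = fun _ => g s := by
          funext j
          rw [hdown, hc2, one_pow, one_mul]
        rw [h2] at h1
        exact tendsto_nhds_unique tendsto_const_nhds h1
      have h3 := hshift 0
      rw [hconst (0 + 1)] at h3
      have h4 : ch (-1) ξ = 1 := by
        have : (ch (-1) ξ - 1) * g 0 = 0 := by linear_combination -h3
        rcases mul_eq_zero.1 this with h1 | h1
        · exact sub_eq_zero.1 h1
        · exact absurd h1 hg0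
      unfold ch at h4
      rw [Complex.exp_eq_one_iff] at h4
      obtain ⟨m, hm⟩ := h4
      have h5 : (2 * (Real.pi : ℂ) * I) * ((ξ : ℂ) + m) = 0 := by
        push_cast at hm
        linear_combination -hm
      rcases mul_eq_zero.1 h5 with h6 | h6
      · exact Complex.two_pi_I_ne_zero h6
      · have h7 : ξ + m = 0 := by exact_mod_cast h6
        apply hξ (-m)
        push_cast
        linarith

/-- **Classification.** -/
theorem classification {φ : ℝ → ℂ} (hcont : Continuous φ) (hc : HasCompactSupport φ)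
    (hφ : φ ≠ 0) {d : ℤ →₀ ℂ} (hd : Dilation φ d) (hns : ¬ SymmetricZeros d) {ξ : ℝ}
    (hξ : ∀ n : ℤ, ξ ≠ n) : (∀ t : ℝ, zak φ t ξ = 0) ↔ CyclicZero d ξ :=
  ⟨fun h => cyclic_of_line hc hφ hd hns h, fun h => line_of_cyclic hcont hc hd hξ h⟩

end Pool.Agent.Y796.RI
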