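import Pool.Agent.Y796.RI.Pos

/-!
# Existence of the families
-/

open Filter Topology Complex MeasureTheory

namespace Pool.Agent.Y796.RI

open Pool.Agent.TH311.Rioul

/-- the base scaling function -/
noncomputable def phiC (t : ℝ) : ℂ := (phi0 t : ℂ)

/-- the base filter -/
noncomputable def dC : ℤ →₀ ℂ :=
  Finsupp.single 0 (3/5) + Finsupp.single 1 (6/5) + Finsupp.single 2 (2/5) +
    Finsupp.single 3 (-1/5)

lemma dC_sum (F : ℤ → ℂ) : (dC.sum fun k c => c * F k) =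
    3/5 * F 0 + 6/5 * F 1 + 2/5 * F 2 + -1/5 * F 3 := by
  unfold dC
  have h0 : ∀ a : ℤ, (0:ℂ) * F a = 0 := fun a => zero_mul _
  have hadd : ∀ (a : ℤ) (b₁ b₂ : ℂ), (b₁ + b₂) * F a = b₁ * F a + b₂ * F a :=
    fun a b₁ b₂ => add_mul _ _ _
  rw [Finsupp.sum_add_index' h0 hadd, Finsupp.sum_add_index' h0 hadd,
    Finsupp.sum_add_index' h0 hadd, Finsupp.sum_single_index (h0 _),
    Finsupp.sum_single_index (h0 _), Finsupp.sum_single_index (h0 _),
    Finsupp.sum_single_index (h0 _)]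

lemma phiC_continuous : Continuous phiC := Complex.continuous_ofReal.comp phi0_continuous

lemma phiC_compact : HasCompactSupport phiC := by
  apply HasCompactSupport.intro (isCompact_Icc (a := (0:ℝ)) (b := 3))
  intro t ht
  have : t < 0 ∨ 3 < t := by
    by_contra h
    push Not at h
    exact ht ⟨h.1, h.2⟩
  unfold phiC
  rw [phi0_supp t (by rcases this with h | h; left; linarith; right; linarith)]
  simp

lemma phiC_dilation : Dilation phiC dC := by
  intro t
  rw [dC_sum (fun k => phiC (t - k))]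
  unfold phiC
  rw [phi0_refine (t/2)]
  unfold K
  rw [show 2 * (t / 2) = t by ring]
  push_cast
  rw [sub_zero]
  ring

lemma phiC_ne_zero : phiC ≠ 0 := by
  intro h
  have h1 := (phi0_sum 0 le_rfl zero_le_one)
  have h2 : ∀ x : ℝ, phi0 x = 0 := by
    intro x
    exact Complex.ofReal_eq_zero.1 (congrFun h x)
  rw [h2, h2, h2] at h1
  norm_num at h1

lemma symbol_dC (ξ : ℝ) : symbol dC ξ =
    3/5 + 6/5 * ch 1 ξ + 2/5 * ch 1 ξ ^ 2 - 1/5 * ch 1 ξ ^ 3 := by
  rw [symbol_eq, dC_sum fun k => ch k ξ, ch_zero]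
  have h2 := ch_nat 2 ξ
  have h3 := ch_nat 3 ξ
  rw [show (2 : ℤ) = ((2 : ℕ) : ℤ) from rfl, show (3 : ℤ) = ((3 : ℕ) : ℤ) from rfl, h2, h3]
  ring

lemma symbol_dC_d3 (ξ : ℝ) : symbol dC ξ = symbol d3 (ξ / 3) := by
  rw [symbol_dC, symbol_d3]
  have : exp (6 * (Real.pi : ℂ) * I * ((ξ / 3 : ℝ) : ℂ)) = ch 1 ξ := by
    unfold ch
    congr 1
    push_cast
    ring
  rw [this]

lemma dC_qmf : QMF dC := by
  intro ξ
  have h := qmf (ξ / 3)
  have h1 : symbol d3 (ξ / 3 + 1 / 2) = symbol dC (ξ + 1 / 2) := by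
    rw [symbol_dC, symbol_d3, exp_half]
    have e1 : exp (6 * (Real.pi : ℂ) * I * ((ξ / 3 : ℝ) : ℂ)) = ch 1 ξ := by
      unfold ch
      congr 1
      push_cast
      ring
    have e2 : ch 1 (ξ + 1 / 2) = - ch 1 ξ := by rw [ch_add', ch_one_half]; ring
    rw [e1, e2]
  rw [h1, ← symbol_dC_d3] at h
  exact h

lemma dC_zero : symbol dC 0 = 2 := by
  rw [symbol_dC, ch_zero']; norm_num

lemma dC_half : symbol dC (1 / 2) = 0 := by
  rw [symbol_dC, ch_one_half]; norm_num

/-- iterated smoothing -/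
noncomputable def phiS : ℕ → ℝ → ℂ
  | 0 => phiC
  | r + 1 => sm (phiS r)

/-- its coefficients -/
noncomputable def dS : ℕ → (ℤ →₀ ℂ)
  | 0 => dC
  | r + 1 => smc (dS r)

lemma phiS_contDiff (r : ℕ) : ContDiff ℝ r (phiS r) := by
  induction r with
  | zero => exact contDiff_zero.2 phiC_continuous
  | succ r ih => exact sm_contDiff ih

lemma phiS_continuous (r : ℕ) : Continuous (phiS r) := (phiS_contDiff r).continuous

lemma phiS_compact (r : ℕ) : HasCompactSupport (phiS r) := by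
  induction r with
  | zero => exact phiC_compact
  | succ r ih => exact sm_compact ih

lemma phiS_ne_zero (r : ℕ) : phiS r ≠ 0 := by
  induction r with
  | zero => exact phiC_ne_zero
  | succ r ih => exact sm_ne_zero (phiS_continuous r) (phiS_compact r) ih

lemma phiS_dilation (r : ℕ) : Dilation (phiS r) (dS r) := by
  induction r with
  | zero => exact phiC_dilation
  | succ r ih => exact sm_dilation (phiS_continuous r) ih

lemma dS_zero (r : ℕ) : symbol (dS r) 0 = 2 := by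
  induction r with
  | zero => exact dC_zero
  | succ r ih => exact smc_zero.trans ih

lemma dS_half (r : ℕ) : symbol (dS r) (1 / 2) = 0 := by
  cases r with
  | zero => exact dC_half
  | succ r => exact smc_half

lemma dS_not_symmetric (r : ℕ) : ¬ SymmetricZeros (dS r) := by
  induction r with
  | zero => exact dC_qmf.not_symmetric
  | succ r ih => exact smc_not_symmetric (by rw [dS_zero]; norm_num) ih

lemma phiS_real (r : ℕ) : ∃ f : ℝ → ℝ, ∀ t, phiS r t = (f t : ℂ) := by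
  induction r with
  | zero => exact ⟨phi0, fun t => rfl⟩
  | succ r ih =>
    obtain ⟨f, hf⟩ := ih
    refine ⟨fun t => ∫ s in (t - 1)..t, f s, fun t => ?_⟩
    show sm (phiS r) t = _
    unfold sm
    simp only [hf]
    rw [intervalIntegral.integral_ofReal]

/-- Rioul's conclusion: some `t₀` has `inf_ξ |Zφ(t₀, ξ)| > 0` -/
def RioulConclusion (φ : ℝ → ℂ) : Prop := ∃ t₀ : ℝ, 0 < ⨅ ξ : ℝ, ‖zak φ t₀ ξ‖

lemma fails_of_line {φ : ℝ → ℂ} (h : ∃ ξ : ℝ, ∀ t : ℝ, zak φ t ξ = 0) :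
    ¬ RioulConclusion φ := by
  rintro ⟨t₀, ht⟩
  obtain ⟨ξ, hξ⟩ := h
  have h1 : (⨅ ξ : ℝ, ‖zak φ t₀ ξ‖) ≤ ‖zak φ t₀ ξ‖ :=
    ciInf_le ⟨0, by rintro _ ⟨ξ, rfl⟩; exact norm_nonneg _⟩ ξ
  rw [hξ, norm_zero] at h1
  linarith

end Pool.Agent.Y796.RI
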