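import Pool.Agent.Y796.RI.Str

/-!
# Real quadrature mirror filters with four coefficients: the choice `t₀ = 0` works
-/

open Filter Topology Complex MeasureTheory

namespace Pool.Agent.Y796.RI

open Pool.Agent.TH311.Rioul

/-- support of a refinable function -/
lemma supp_right {φ : ℝ → ℂ} (hc : HasCompactSupport φ) {d : ℤ →₀ ℂ} (hd : Dilation φ d)
    {b : ℤ} (hb : ∀ k ∈ d.support, k ≤ b) {t : ℝ} (ht : (b : ℝ) < t) : φ t = 0 := by
  obtain ⟨R, hR⟩ := hc.isCompact.isBounded.subset_closedBall 0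
  have h1 : ∀ x : ℝ, φ x ≠ 0 → |x| ≤ R := by
    intro x hx
    have h2 := hR (subset_tsupport φ hx)
    simpa [Metric.mem_closedBall, Real.dist_eq] using h2
  by_contra hne
  have key : ∀ n : ℕ, ∃ s : ℝ, φ s ≠ 0 ∧ 2 ^ n * (t - b) ≤ s - b := by
    intro n
    induction n with
    | zero => exact ⟨t, hne, by simp⟩
    | succ n ih =>
      obtain ⟨s, hs, hsb⟩ := ih
      have h2 := hd (2 * s)
      rw [show 2 * s / 2 = s by ring] at h2
      obtain ⟨k, hk, hkne⟩ : ∃ k ∈ d.support, φ (2 * s - k) ≠ 0 := by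
        by_contra hcon
        push Not at hcon
        apply hs
        rw [h2]
        unfold Finsupp.sum
        refine Finset.sum_eq_zero fun k hk => ?_
        show d k * φ (2 * s - k) = 0
        rw [hcon k hk, mul_zero]
      refine ⟨2 * s - k, hkne, ?_⟩
      have hkb : (k : ℝ) ≤ b := by exact_mod_cast hb k hk
      rw [pow_succ]
      linarith
  have hpos : 0 < t - b := by linarith
  obtain ⟨n, hn⟩ := pow_unbounded_of_one_lt ((R - b) / (t - b)) (one_lt_two (α := ℝ))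
  obtain ⟨s, hs, hsb⟩ := key n
  rw [div_lt_iff₀ hpos] at hn
  have := (abs_le.1 (h1 s hs)).2
  linarith

lemma supp_left {φ : ℝ → ℂ} (hc : HasCompactSupport φ) {d : ℤ →₀ ℂ} (hd : Dilation φ d)
    {a : ℤ} (ha : ∀ k ∈ d.support, a ≤ k) {t : ℝ} (ht : t < a) : φ t = 0 := by
  obtain ⟨R, hR⟩ := hc.isCompact.isBounded.subset_closedBall 0
  have h1 : ∀ x : ℝ, φ x ≠ 0 → |x| ≤ R := by
    intro x hx
    have h2 := hR (subset_tsupport φ hx)
    simpa [Metric.mem_closedBall, Real.dist_eq] using h2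
  by_contra hne
  have key : ∀ n : ℕ, ∃ s : ℝ, φ s ≠ 0 ∧ 2 ^ n * (a - t) ≤ a - s := by
    intro n
    induction n with
    | zero => exact ⟨t, hne, by simp⟩
    | succ n ih =>
      obtain ⟨s, hs, hsb⟩ := ih
      have h2 := hd (2 * s)
      rw [show 2 * s / 2 = s by ring] at h2
      obtain ⟨k, hk, hkne⟩ : ∃ k ∈ d.support, φ (2 * s - k) ≠ 0 := by
        by_contra hcon
        push Not at hcon
        apply hs
        rw [h2]
        unfold Finsupp.sum
        refine Finset.sum_eq_zero fun k hk => ?_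
        show d k * φ (2 * s - k) = 0
        rw [hcon k hk, mul_zero]
      refine ⟨2 * s - k, hkne, ?_⟩
      have hkb : (a : ℝ) ≤ k := by exact_mod_cast ha k hk
      rw [pow_succ]
      linarith
  have hpos : 0 < a - t := by linarith
  obtain ⟨n, hn⟩ := pow_unbounded_of_one_lt ((a + R) / (a - t)) (one_lt_two (α := ℝ))
  obtain ⟨s, hs, hsb⟩ := key n
  rw [div_lt_iff₀ hpos] at hn
  have := (abs_le.1 (h1 s hs)).1
  linarith

lemma supp_right' {φ : ℝ → ℂ} (hcont : Continuous φ) (hc : HasCompactSupport φ) {d : ℤ →₀ ℂ}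
    (hd : Dilation φ d) {b : ℤ} (hb : ∀ k ∈ d.support, k ≤ b) {t : ℝ} (ht : (b : ℝ) ≤ t) :
    φ t = 0 := by
  have h1 : Set.EqOn φ (fun _ => 0) (closure (Set.Ioi (b : ℝ))) :=
    Set.EqOn.closure (fun x hx => supp_right hc hd hb hx) hcont continuous_const
  rw [closure_Ioi] at h1
  exact h1 ht

lemma supp_left' {φ : ℝ → ℂ} (hcont : Continuous φ) (hc : HasCompactSupport φ) {d : ℤ →₀ ℂ}
    (hd : Dilation φ d) {a : ℤ} (ha : ∀ k ∈ d.support, a ≤ k) {t : ℝ} (ht : t ≤ a) :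
    φ t = 0 := by
  have h1 : Set.EqOn φ (fun _ => 0) (closure (Set.Iio (a : ℝ))) :=
    Set.EqOn.closure (fun x hx => supp_left hc hd ha hx) hcont continuous_const
  rw [closure_Iio] at h1
  exact h1 ht

/-- values at the integers determine a refinable function -/
lemma zero_of_int {φ : ℝ → ℂ} (hcont : Continuous φ) {d : ℤ →₀ ℂ} (hd : Dilation φ d)
    (h : ∀ n : ℤ, φ n = 0) : φ = 0 := by
  have h1 : ∀ (n : ℕ) (k : ℤ), φ (k / 2 ^ n) = 0 := by
    intro n
    induction n with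
    | zero => intro k; simpa using h k
    | succ n ih =>
      intro k
      have h2 := hd (k / 2 ^ n)
      rw [show (k : ℝ) / 2 ^ n / 2 = k / 2 ^ (n + 1) by rw [pow_succ, div_div]] at h2
      rw [h2]
      unfold Finsupp.sum
      refine Finset.sum_eq_zero fun j _ => ?_
      show d j * φ (k / 2 ^ n - j) = 0
      have h3 : (k : ℝ) / 2 ^ n - j = ((k - 2 ^ n * j : ℤ) : ℝ) / 2 ^ n := by
        push_cast
        field_simp
      rw [h3, ih, mul_zero]
  funext t
  show φ t = 0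
  have h2 : Tendsto (fun n : ℕ => (⌊t * 2 ^ n⌋ : ℝ) / 2 ^ n) atTop (𝓝 t) := by
    have h3 : Tendsto (fun n : ℕ => t - (1 / 2 : ℝ) ^ n) atTop (𝓝 (t - 0)) :=
      (tendsto_const_nhds).sub (tendsto_pow_atTop_nhds_zero_of_lt_one (by norm_num) (by norm_num))
    rw [sub_zero] at h3
    refine tendsto_of_tendsto_of_tendsto_of_le_of_le h3 tendsto_const_nhds ?_ ?_
    · intro n
      show t - (1 / 2 : ℝ) ^ n ≤ ⌊t * 2 ^ n⌋ / 2 ^ n
      have hp : (0 : ℝ) < 2 ^ n := by positivity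
      rw [le_div_iff₀ hp]
      have h4 := (Int.lt_floor_add_one (t * 2 ^ n)).le
      have h5 : (1 / 2 : ℝ) ^ n * 2 ^ n = 1 := by
        rw [← mul_pow]; norm_num
      nlinarith
    · intro n
      show ⌊t * 2 ^ n⌋ / 2 ^ n ≤ t
      have hp : (0 : ℝ) < 2 ^ n := by positivity
      rw [div_le_iff₀ hp]
      exact Int.floor_le _
  have h3 : Tendsto (fun n : ℕ => φ ((⌊t * 2 ^ n⌋ : ℝ) / 2 ^ n)) atTop (𝓝 (φ t)) :=
    (hcont.tendsto t).comp h2
  have h4 : (fun n : ℕ => φ ((⌊t * 2 ^ n⌋ : ℝ) / 2 ^ n)) = fun _ => 0 := by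
    funext n
    exact h1 n _
  rw [h4] at h3
  exact tendsto_nhds_unique h3 tendsto_const_nhds

/-- sums over four coefficients -/
lemma sum_four {d : ℤ →₀ ℂ} (h : ∀ k ∈ d.support, 0 ≤ k ∧ k ≤ 3) (F : ℤ → ℂ) :
    (d.sum fun k c => c * F k) = d 0 * F 0 + d 1 * F 1 + d 2 * F 2 + d 3 * F 3 := by
  have h1 : d.support ⊆ ({0, 1, 2, 3} : Finset ℤ) := by
    intro k hk
    have := h k hk
    simp only [Finset.mem_insert, Finset.mem_singleton]
    omega
  rw [Finsupp.sum_of_support_subset d h1 (fun k c => c * F k) (fun i _ => zero_mul _)]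
  rw [Finset.sum_insert (by decide), Finset.sum_insert (by decide),
    Finset.sum_insert (by decide), Finset.sum_singleton]
  ring

lemma ch_nat (n : ℕ) (ξ : ℝ) : ch n ξ = ch 1 ξ ^ n := by
  unfold ch
  rw [← Complex.exp_nat_mul]
  congr 1
  push_cast
  ring

lemma symbol_four {d : ℤ →₀ ℂ} (h : ∀ k ∈ d.support, 0 ≤ k ∧ k ≤ 3) (ξ : ℝ) :
    symbol d ξ = d 0 + d 1 * ch 1 ξ + d 2 * ch 1 ξ ^ 2 + d 3 * ch 1 ξ ^ 3 := by
  rw [symbol_eq, sum_four h fun k => ch k ξ, ch_zero]
  have h2 := ch_nat 2 ξ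
  have h3 := ch_nat 3 ξ
  rw [show (2 : ℤ) = ((2 : ℕ) : ℤ) from rfl, show (3 : ℤ) = ((3 : ℕ) : ℤ) from rfl, h2, h3]
  ring

lemma ch_quarter : ch 1 (1 / 4) = I := by
  unfold ch
  have : 2 * (Real.pi : ℂ) * I * ((1 : ℤ) : ℂ) * ((1 / 4 : ℝ) : ℂ) = (Real.pi : ℂ) / 2 * I := by
    push_cast; ring
  rw [this, Complex.exp_pi_div_two_mul_I]

/-- the algebra of real quadrature mirror filters with four coefficients -/
lemma four_algebra {a0 a1 a2 a3 : ℝ} (e1 : a0 ^ 2 + a1 ^ 2 + a2 ^ 2 + a3 ^ 2 = 2)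
    (e2 : a0 * a2 + a1 * a3 = 0) (e3 : a0 ^ 2 = (1 - a1) ^ 2) (e4 : a3 ^ 2 = (1 - a2) ^ 2)
    (e5 : a0 * a3 = (1 - a1) * (1 - a2)) :
    (a1 = 0 ∧ a2 = 0 ∧ a3 = a0 ∧ (a0 = 1 ∨ a0 = -1)) ∨ (a0 = 0 ∧ a1 = 1 ∧ a2 = 1 ∧ a3 = 0) := by
  -- the common consequence
  have key : a1 + a2 = 2 * a1 * a2 → a1 = a2 ∧ (a1 = 0 ∨ a1 = 1) := by
    intro h
    have h1 : a1 ^ 2 + a2 ^ 2 = a1 + a2 := by nlinarith
    have h2 : (a1 - a2) ^ 2 = 0 := by nlinarith
    have h3 : a1 = a2 := by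
      have := pow_eq_zero_iff (two_ne_zero) |>.1 h2
      linarith
    refine ⟨h3, ?_⟩
    rw [← h3] at h
    have : a1 * (a1 - 1) = 0 := by nlinarith
    rcases mul_eq_zero.1 this with h4 | h4
    · exact Or.inl h4
    · exact Or.inr (by linarith)
  rcases sq_eq_sq_iff_eq_or_eq_neg.1 e3 with h0 | h0 <;>
    rcases sq_eq_sq_iff_eq_or_eq_neg.1 e4 with h3 | h3
  · obtain ⟨h4, h5⟩ := key (by rw [h0, h3] at e2; linarith)
    rcases h5 with h5 | h5
    · left; refine ⟨h5, by linarith, by linarith, Or.inl (by linarith)⟩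
    · right; refine ⟨by linarith, h5, by linarith, by linarith⟩
  · -- opposite signs
    have h6 : (1 - a1) * (1 - a2) = 0 := by
      rw [h0, h3] at e5; linarith
    rcases mul_eq_zero.1 h6 with h7 | h7
    · have ha1 : a1 = 1 := by linarith
      have ha0 : a0 = 0 := by linarith
      have ha3 : a3 = 0 := by rw [ha0, ha1] at e2; linarith
      right; exact ⟨ha0, ha1, by linarith, ha3⟩
    · have ha2 : a2 = 1 := by linarith
      have ha3 : a3 = 0 := by rw [h3, ha2]; norm_num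
      have ha0 : a0 = 0 := by rw [ha2, ha3] at e2; linarith
      right; exact ⟨ha0, by linarith, ha2, ha3⟩
  · have h6 : (1 - a1) * (1 - a2) = 0 := by
      rw [h0, h3] at e5; linarith
    rcases mul_eq_zero.1 h6 with h7 | h7
    · have ha1 : a1 = 1 := by linarith
      have ha0 : a0 = 0 := by rw [h0, ha1]; norm_num
      have ha3 : a3 = 0 := by rw [ha0, ha1] at e2; linarith
      right; exact ⟨ha0, ha1, by linarith, ha3⟩
    · have ha2 : a2 = 1 := by linarith
      have ha3 : a3 = 0 := by linarith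
      have ha0 : a0 = 0 := by rw [ha2, ha3] at e2; linarith
      right; exact ⟨ha0, by linarith, ha2, ha3⟩
  · obtain ⟨h4, h5⟩ := key (by rw [h0, h3] at e2; linarith)
    rcases h5 with h5 | h5
    · left; refine ⟨h5, by linarith, by linarith, Or.inr (by linarith)⟩
    · right; refine ⟨by linarith, h5, by linarith, by linarith⟩

/-- a continuous function whose norm is invariant under halving on a half line vanishes there -/
lemma zero_of_halving {f : ℝ → ℂ} (hf : Continuous f) (h0 : f 0 = 0) {b : ℝ}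
    (h : ∀ t, 0 ≤ t → t ≤ b → ‖f (t / 2)‖ = ‖f t‖) {t : ℝ} (ht0 : 0 ≤ t) (htb : t ≤ b) :
    f t = 0 := by
  have h1 : ∀ n : ℕ, ‖f (t / 2 ^ n)‖ = ‖f t‖ := by
    intro n
    induction n with
    | zero => simp
    | succ n ih =>
      rw [pow_succ, ← div_div, h _ (by positivity) ?_, ih]
      exact (div_le_self ht0 (one_le_pow₀ (by norm_num))).trans htb
  have h2 : Tendsto (fun n : ℕ => t / 2 ^ n) atTop (𝓝 0) :=
    Tendsto.const_div_atTop (tendsto_pow_atTop_atTop_of_one_lt (by norm_num)) t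
  have h3 : Tendsto (fun n : ℕ => ‖f (t / 2 ^ n)‖) atTop (𝓝 ‖f 0‖) :=
    ((hf.tendsto 0).comp h2).norm
  simp only [h1] at h3
  have h4 := tendsto_nhds_unique h3 tendsto_const_nhds
  rw [h0, norm_zero] at h4
  exact norm_eq_zero.1 h4.symm

/-- **Real four-coefficient quadrature mirror filters.** -/
theorem four_tap {φ : ℝ → ℂ} (hcont : Continuous φ) (hc : HasCompactSupport φ)
    (hφ : φ ≠ 0) {d : ℤ →₀ ℂ} (hd : Dilation φ d) (hq : QMF d)
    (hreal : ∀ k, (d k).im = 0) (hsupp : ∀ k ∈ d.support, 0 ≤ k ∧ k ≤ 3) :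
    0 < ⨅ ξ : ℝ, ‖zak φ 0 ξ‖ := by
  set a0 := (d 0).re with ha0
  set a1 := (d 1).re with ha1
  set a2 := (d 2).re with ha2
  set a3 := (d 3).re with ha3
  have hd0 : d 0 = (a0 : ℂ) := Complex.ext (by simp [ha0]) (by simp [hreal])
  have hd1 : d 1 = (a1 : ℂ) := Complex.ext (by simp [ha1]) (by simp [hreal])
  have hd2 : d 2 = (a2 : ℂ) := Complex.ext (by simp [ha2]) (by simp [hreal])
  have hd3 : d 3 = (a3 : ℂ) := Complex.ext (by simp [ha3]) (by simp [hreal])
  -- quadratic equations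
  have hs := symbol_four hsupp
  have E1 : (a0 + a2) ^ 2 + (a1 + a3) ^ 2 = 2 := by
    have h := hq 0
    rw [zero_add, hs 0, hs (1 / 2), ch_zero', ch_one_half, hd0, hd1, hd2, hd3] at h
    have e1 : ((a0 : ℂ) + a1 * 1 + a2 * 1 ^ 2 + a3 * 1 ^ 3) = ((a0 + a1 + a2 + a3 : ℝ) : ℂ) := by
      push_cast; ring
    have e2 : ((a0 : ℂ) + a1 * (-1) + a2 * (-1) ^ 2 + a3 * (-1) ^ 3) =
        ((a0 - a1 + a2 - a3 : ℝ) : ℂ) := by
      push_cast; ring
    rw [e1, e2, Complex.norm_real, Complex.norm_real, Real.norm_eq_abs, Real.norm_eq_abs,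
      sq_abs, sq_abs] at h
    nlinarith
  have E2 : (a0 - a2) ^ 2 + (a1 - a3) ^ 2 = 2 := by
    have h := hq (1 / 4)
    have hch : ch 1 (1 / 4 + 1 / 2) = -I := by
      rw [ch_add', ch_quarter, ch_one_half]; ring
    rw [hs (1 / 4), hs (1 / 4 + 1 / 2), hch, ch_quarter, hd0, hd1, hd2, hd3] at h
    have e1 : ((a0 : ℂ) + a1 * I + a2 * I ^ 2 + a3 * I ^ 3) =
        ((a0 - a2 : ℝ) : ℂ) + ((a1 - a3 : ℝ) : ℂ) * I := by
      have : I ^ 3 = -I := by rw [pow_succ, Complex.I_sq]; ring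
      rw [this, Complex.I_sq]
      push_cast; ring
    have e2 : ((a0 : ℂ) + a1 * (-I) + a2 * (-I) ^ 2 + a3 * (-I) ^ 3) =
        ((a0 - a2 : ℝ) : ℂ) + ((-(a1 - a3) : ℝ) : ℂ) * I := by
      have h3 : (-I) ^ 3 = I := by
        rw [show (-I) ^ 3 = -(I ^ 2 * I) by ring, Complex.I_sq]; ring
      have h2 : (-I) ^ 2 = -1 := by rw [neg_sq, Complex.I_sq]
      rw [h3, h2]
      push_cast; ring
    rw [e1, e2, ← Complex.normSq_eq_norm_sq, ← Complex.normSq_eq_norm_sq,
      Complex.normSq_add_mul_I, Complex.normSq_add_mul_I] at h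
    nlinarith
  have e1 : a0 ^ 2 + a1 ^ 2 + a2 ^ 2 + a3 ^ 2 = 2 := by nlinarith
  have e2 : a0 * a2 + a1 * a3 = 0 := by nlinarith
  -- support
  have hL : ∀ t : ℝ, t ≤ 0 → φ t = 0 := fun t ht =>
    supp_left' hcont hc hd (a := 0) (fun k hk => (hsupp k hk).1) (by simpa using ht)
  have hR : ∀ t : ℝ, 3 ≤ t → φ t = 0 := fun t ht =>
    supp_right' hcont hc hd (b := 3) (fun k hk => (hsupp k hk).2) (by simpa using ht)
  have hdil : ∀ t : ℝ, φ (t / 2) = a0 * φ t + a1 * φ (t - 1) + a2 * φ (t - 2) + a3 * φ (t - 3) := by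
    intro t
    rw [hd t, sum_four hsupp fun k => φ (t - k), hd0, hd1, hd2, hd3]
    norm_num
  have hv1 : φ 1 = a0 * φ 2 + a1 * φ 1 := by
    have h := hdil 2
    rw [show (2 : ℝ) / 2 = 1 by norm_num, show (2 : ℝ) - 1 = 1 by norm_num,
      hL (2 - 2) (by norm_num), hL (2 - 3) (by norm_num)] at h
    linear_combination h
  have hv2 : φ 2 = a2 * φ 2 + a3 * φ 1 := by
    have h := hdil 4
    rw [show (4 : ℝ) / 2 = 2 by norm_num, show (4 : ℝ) - 2 = 2 by norm_num,
      show (4 : ℝ) - 3 = 1 by norm_num,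
      hR 4 (by norm_num), hR (4 - 1) (by norm_num)] at h
    linear_combination h
  have hne : ‖φ 1‖ ≠ ‖φ 2‖ := by
    intro heq
    by_cases h1 : φ 1 = 0
    · -- then everything vanishes
      have h2 : φ 2 = 0 := by
        rw [h1, norm_zero] at heq
        exact norm_eq_zero.1 heq.symm
      apply hφ
      apply zero_of_int hcont hd
      intro n
      by_cases hn : n ≤ 0
      · exact hL _ (by exact_mod_cast hn)
      by_cases hn3 : 3 ≤ n
      · exact hR _ (by exact_mod_cast hn3)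
      have : n = 1 ∨ n = 2 := by omega
      rcases this with rfl | rfl
      · simpa using h1
      · simpa using h2
    · have h2 : φ 2 ≠ 0 := by
        intro h
        rw [h, norm_zero] at heq
        exact h1 (norm_eq_zero.1 heq)
      have r1 : (a0 : ℂ) * φ 2 = ((1 - a1 : ℝ) : ℂ) * φ 1 := by
        push_cast
        linear_combination -hv1
      have r2 : (a3 : ℂ) * φ 1 = ((1 - a2 : ℝ) : ℂ) * φ 2 := by
        push_cast
        linear_combination -hv2
      have e3 : a0 ^ 2 = (1 - a1) ^ 2 := by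
        have h := congrArg norm r1
        rw [norm_mul, norm_mul, Complex.norm_real, Complex.norm_real, heq] at h
        have h' := mul_right_cancel₀ (norm_ne_zero_iff.2 h2) h
        rw [Real.norm_eq_abs, Real.norm_eq_abs] at h'
        exact (sq_eq_sq_iff_abs_eq_abs _ _).2 h'
      have e4 : a3 ^ 2 = (1 - a2) ^ 2 := by
        have h := congrArg norm r2
        rw [norm_mul, norm_mul, Complex.norm_real, Complex.norm_real, heq] at h
        have h' := mul_right_cancel₀ (norm_ne_zero_iff.2 h2) h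
        rw [Real.norm_eq_abs, Real.norm_eq_abs] at h'
        exact (sq_eq_sq_iff_abs_eq_abs _ _).2 h'
      have e5 : a0 * a3 = (1 - a1) * (1 - a2) := by
        have h : ((a0 * a3 : ℝ) : ℂ) * (φ 1 * φ 2) =
            (((1 - a1) * (1 - a2) : ℝ) : ℂ) * (φ 1 * φ 2) := by
          rw [Complex.ofReal_mul, Complex.ofReal_mul]
          linear_combination (a3 : ℂ) * φ 1 * r1 + ((1 - a1 : ℝ) : ℂ) * φ 1 * r2
        have h' := mul_right_cancel₀ (mul_ne_zero h1 h2) h
        exact_mod_cast h'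
      rcases four_algebra e1 e2 e3 e4 e5 with ⟨k1, k2, k3, k4⟩ | ⟨k0, k1, k2, k3⟩
      · -- `φ (t/2) = ± (φ t + φ (t - 3))`
        have hhalf : ∀ t, 0 ≤ t → t ≤ 3 → ‖φ (t / 2)‖ = ‖φ t‖ := by
          intro t _ ht3
          rw [hdil t, k1, k2, k3, hL (t - 3) (by linarith)]
          rcases k4 with k4 | k4 <;> rw [k4] <;> simp
        apply h1
        exact zero_of_halving hcont (hL 0 le_rfl) hhalf (by norm_num) (by norm_num)
      · -- `φ (t/2) = φ (t - 1) + φ (t - 2)`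
        have hsupp' : ∀ k ∈ d.support, 1 ≤ k := by
          intro k hk
          have h := hsupp k hk
          by_contra hlt
          have hk0 : k = 0 := by omega
          rw [Finsupp.mem_support_iff, hk0, hd0, k0] at hk
          exact hk (by simp)
        have hL1 : ∀ t : ℝ, t ≤ 1 → φ t = 0 := fun t ht =>
          supp_left' hcont hc hd (a := 1) hsupp' (by simpa using ht)
        exact h1 (hL1 1 le_rfl)
  -- the Zak transform at `t = 0`
  have hz : ∀ ξ, zak φ 0 ξ = φ 1 * ch 1 ξ + φ 2 * ch 2 ξ := by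
    intro ξ
    rw [zak_eq, tsum_eq_sum (s := ({1, 2} : Finset ℤ))]
    · rw [Finset.sum_insert (by decide), Finset.sum_singleton]
      norm_num
    · intro k hk
      simp only [Finset.mem_insert, Finset.mem_singleton, not_or] at hk
      have : φ (0 + k) = 0 := by
        rw [zero_add]
        by_cases hk0 : k ≤ 0
        · exact hL _ (by exact_mod_cast hk0)
        · exact hR _ (by exact_mod_cast (show (3:ℤ) ≤ k by omega))
      rw [this, zero_mul]
  have hlow : ∀ ξ, |‖φ 1‖ - ‖φ 2‖| ≤ ‖zak φ 0 ξ‖ := by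
    intro ξ
    rw [hz]
    have h := abs_norm_sub_norm_le (φ 1 * ch 1 ξ) (-(φ 2 * ch 2 ξ))
    rw [norm_neg, norm_mul, norm_mul, norm_ch, norm_ch, mul_one, mul_one, sub_neg_eq_add] at h
    exact h
  exact lt_of_lt_of_le (abs_pos.2 (sub_ne_zero.2 hne)) (le_ciInf hlow)

end Pool.Agent.Y796.RI
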