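import Pool.Agent.Y796.RI.Cls

/-!
# Quadrature mirror filters: non-orthogonal integer shifts force a zero line
-/

open Filter Topology Complex MeasureTheory

namespace Pool.Agent.Y796.RI

open Pool.Agent.TH311.Rioul

/-- quadrature mirror filter condition -/
def QMF (d : ℤ →₀ ℂ) : Prop :=
  ∀ ξ : ℝ, ‖symbol d ξ‖ ^ 2 + ‖symbol d (ξ + 1 / 2)‖ ^ 2 = 4

lemma QMF.not_symmetric {d : ℤ →₀ ℂ} (h : QMF d) : ¬ SymmetricZeros d := by
  rintro ⟨ξ, -, -, h1, h2⟩
  have := h ξ
  rw [h1, h2] at this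
  norm_num at this

/-- the mean square of the Zak transform along a line -/
noncomputable def Ph (φ : ℝ → ℂ) (ξ : ℝ) : ℝ := ∫ t in (0:ℝ)..1, ‖zak φ t ξ‖ ^ 2

/-- autocorrelation -/
noncomputable def ac (φ : ℝ → ℂ) (j : ℤ) : ℂ := ∫ t : ℝ, φ (t + j) * (starRingEnd ℂ) (φ t)

lemma Ph_nonneg (φ : ℝ → ℂ) (ξ : ℝ) : 0 ≤ Ph φ ξ :=
  intervalIntegral.integral_nonneg zero_le_one fun _ _ => by positivity

lemma Ph_add_int (φ : ℝ → ℂ) (ξ : ℝ) (n : ℤ) : Ph φ (ξ + n) = Ph φ ξ := by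
  unfold Ph
  simp only [zak_add_int]

lemma Ph_of_line {φ : ℝ → ℂ} {ξ : ℝ} (h : Line φ ξ) : Ph φ ξ = 0 := by
  unfold Ph
  simp [h _]

/-- the functional equation of the mean square -/
lemma Ph_eq {φ : ℝ → ℂ} (hcont : Continuous φ) (hc : HasCompactSupport φ) {d : ℤ →₀ ℂ}
    (hd : Dilation φ d) (ξ : ℝ) :
    4 * Ph φ ξ = ‖symbol d (ξ / 2)‖ ^ 2 * Ph φ (ξ / 2) +
      ‖symbol d (ξ / 2 + 1 / 2)‖ ^ 2 * Ph φ (ξ / 2 + 1 / 2) := by
  have hci : ∀ η, Continuous fun t => ‖zak φ t η‖ ^ 2 := fun η =>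
    (zak_continuous hcont hc η).norm.pow 2
  have hpt : ∀ t, 4 * ‖zak φ t ξ‖ ^ 2 + 4 * ‖zak φ (t + 1 / 2) ξ‖ ^ 2 =
      2 * (‖symbol d (ξ / 2)‖ ^ 2 * ‖zak φ (2 * t) (ξ / 2)‖ ^ 2) +
      2 * (‖symbol d (ξ / 2 + 1 / 2)‖ ^ 2 * ‖zak φ (2 * t) (ξ / 2 + 1 / 2)‖ ^ 2) := by
    intro t
    have h1 := zak_even hc hd t ξ
    have h2 := zak_odd hc hd t ξ
    have h3 := parallelogram_law_with_norm ℝ (symbol d (ξ / 2) * zak φ (2 * t) (ξ / 2))
      (symbol d (ξ / 2 + 1 / 2) * zak φ (2 * t) (ξ / 2 + 1 / 2))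
    rw [← h1, ← h2, norm_mul, norm_mul, norm_mul, norm_mul, norm_mul, norm_ch] at h3
    have h4 : ‖(2:ℂ)‖ = 2 := by norm_num
    rw [h4] at h3
    linarith
  have h1 : Ph φ ξ = (∫ t in (0:ℝ)..(1/2), ‖zak φ t ξ‖ ^ 2) +
      ∫ t in (0:ℝ)..(1/2), ‖zak φ (t + 1 / 2) ξ‖ ^ 2 := by
    unfold Ph
    rw [intervalIntegral.integral_comp_add_right (fun t => ‖zak φ t ξ‖ ^ 2) (1/2 : ℝ)]
    rw [show (0:ℝ) + 1/2 = 1/2 by norm_num, show (1/2:ℝ) + 1/2 = 1 by norm_num]
    exact (intervalIntegral.integral_add_adjacent_intervals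
      ((hci ξ).intervalIntegrable _ _) ((hci ξ).intervalIntegrable _ _)).symm
  have h2 : ∀ η, ∫ t in (0:ℝ)..(1/2), ‖zak φ (2 * t) η‖ ^ 2 = 1 / 2 * Ph φ η := by
    intro η
    unfold Ph
    rw [intervalIntegral.integral_comp_mul_left (fun t => ‖zak φ t η‖ ^ 2) (two_ne_zero)]
    rw [show (2:ℝ) * 0 = 0 by norm_num, show (2:ℝ) * (1/2) = 1 by norm_num, smul_eq_mul]
    norm_num
  have hc2 : ∀ η, Continuous fun t => ‖zak φ (2 * t) η‖ ^ 2 := fun η =>
    (hci η).comp (continuous_const.mul continuous_id)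
  have hc3 : Continuous fun t => ‖zak φ (t + 1/2) ξ‖ ^ 2 :=
    (hci ξ).comp (continuous_id.add continuous_const)
  calc 4 * Ph φ ξ = ∫ t in (0:ℝ)..(1/2), (4 * ‖zak φ t ξ‖ ^ 2 + 4 * ‖zak φ (t + 1 / 2) ξ‖ ^ 2) := by
        rw [intervalIntegral.integral_add (((hci ξ).const_mul 4).intervalIntegrable _ _)
          ((hc3.const_mul 4).intervalIntegrable _ _), intervalIntegral.integral_const_mul,
          intervalIntegral.integral_const_mul, h1]
        ring
    _ = ∫ t in (0:ℝ)..(1/2), (2 * (‖symbol d (ξ / 2)‖ ^ 2 * ‖zak φ (2 * t) (ξ / 2)‖ ^ 2) +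
      2 * (‖symbol d (ξ / 2 + 1 / 2)‖ ^ 2 * ‖zak φ (2 * t) (ξ / 2 + 1 / 2)‖ ^ 2)) :=
        intervalIntegral.integral_congr fun t _ => hpt t
    _ = _ := by
        rw [intervalIntegral.integral_add
          ((((hc2 (ξ / 2)).const_mul _).const_mul 2).intervalIntegrable _ _)
          ((((hc2 (ξ / 2 + 1 / 2)).const_mul _).const_mul 2).intervalIntegrable _ _)]
        rw [intervalIntegral.integral_const_mul, intervalIntegral.integral_const_mul,
          intervalIntegral.integral_const_mul, intervalIntegral.integral_const_mul, h2, h2]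
        ring

/-- local correlation integrals -/
noncomputable def loc (φ : ℝ → ℂ) (k l : ℤ) : ℂ :=
  ∫ t in (0:ℝ)..1, φ (t + k) * (starRingEnd ℂ) (φ (t + l))

lemma loc_zero {φ : ℝ → ℂ} {S : Finset ℤ}
    (hS : ∀ t : ℝ, |t| ≤ 1 → ∀ k : ℤ, k ∉ S → φ (t + k) = 0) {k l : ℤ} (h : k ∉ S ∨ l ∉ S) :
    loc φ k l = 0 := by
  unfold loc
  rw [intervalIntegral.integral_zero_ae]
  filter_upwards with t ht
  rw [Set.uIoc_of_le zero_le_one] at ht
  have ht' : |t| ≤ 1 := by rw [abs_of_pos ht.1]; exact ht.2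
  rcases h with h | h
  · rw [hS t ht' k h, zero_mul]
  · rw [hS t ht' l h, map_zero, mul_zero]

lemma ac_eq {φ : ℝ → ℂ} (hcont : Continuous φ) (hc : HasCompactSupport φ) {S : Finset ℤ}
    (hS : ∀ t : ℝ, |t| ≤ 1 → ∀ k : ℤ, k ∉ S → φ (t + k) = 0) (j : ℤ) :
    ac φ j = ∑ l ∈ S, loc φ (l + j) l := by
  have hint : Integrable fun t : ℝ => φ (t + j) * (starRingEnd ℂ) (φ t) := by
    apply Continuous.integrable_of_hasCompactSupport
    · exact (hcont.comp (continuous_id.add continuous_const)).mul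
        (Complex.continuous_conj.comp hcont)
    · apply HasCompactSupport.mul_left
      exact hc.comp_left (map_zero _)
  have h1 := hint.hasSum_intervalIntegral_comp_add_int
  have h2 : (fun n : ℤ => ∫ x in (0:ℝ)..1, φ (x + n + j) * (starRingEnd ℂ) (φ (x + n))) =
      fun l : ℤ => loc φ (l + j) l := by
    funext l
    unfold loc
    apply intervalIntegral.integral_congr
    intro t _
    simp only
    push_cast
    rw [add_assoc]
  have h3 : HasSum (fun l : ℤ => loc φ (l + j) l) (ac φ j) := by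
    rw [← h2]
    exact h1
  exact h3.unique (hasSum_sum_of_ne_finset_zero fun l hl => loc_zero hS (Or.inr hl))

/-- the autocorrelation as a finitely supported function -/
lemma exists_acf {φ : ℝ → ℂ} (hcont : Continuous φ) (hc : HasCompactSupport φ) :
    ∃ a : ℤ →₀ ℂ, (∀ j, a j = ac φ j) ∧ ∀ ξ : ℝ, ((Ph φ ξ : ℝ) : ℂ) = symbol a ξ := by
  classical
  obtain ⟨S, hS⟩ := exists_finset hc 1
  let J : Finset ℤ := Finset.image₂ (fun k l => k - l) S S
  have hJ : ∀ j, ac φ j ≠ 0 → j ∈ J := by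
    intro j hj
    by_contra hjJ
    apply hj
    rw [ac_eq hcont hc hS]
    refine Finset.sum_eq_zero fun l hl => loc_zero hS (Or.inl fun h => hjJ ?_)
    rw [Finset.mem_image₂]
    exact ⟨l + j, h, l, hl, by ring⟩
  refine ⟨Finsupp.onFinset J (ac φ) hJ, fun j => rfl, fun ξ => ?_⟩
  have h1 : symbol (Finsupp.onFinset J (ac φ) hJ) ξ = ∑ j ∈ J, ac φ j * ch j ξ := by
    rw [symbol_eq, Finsupp.onFinset_sum]
    intro j
    rw [zero_mul]
  rw [h1]
  -- expansion of the integrand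
  have h2 : ∀ t ∈ Set.uIcc (0:ℝ) 1, ((‖zak φ t ξ‖ ^ 2 : ℝ) : ℂ) =
      ∑ l ∈ S, ∑ k ∈ S, ch (k - l) ξ * (φ (t + k) * (starRingEnd ℂ) (φ (t + l))) := by
    intro t ht
    rw [Set.uIcc_of_le zero_le_one] at ht
    have ht' : |t| ≤ 1 := by rw [abs_of_nonneg ht.1]; exact ht.2
    have h3 : ((‖zak φ t ξ‖ ^ 2 : ℝ) : ℂ) = zak φ t ξ * (starRingEnd ℂ) (zak φ t ξ) := by
      rw [Complex.mul_conj, Complex.normSq_eq_norm_sq]
    rw [h3, zak_eq_sum hS ht', map_sum, Finset.sum_mul_sum, Finset.sum_comm]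
    refine Finset.sum_congr rfl fun l _ => Finset.sum_congr rfl fun k _ => ?_
    rw [map_mul]
    have h4 : (starRingEnd ℂ) (ch l ξ) = ch (-l) ξ := by
      unfold ch
      rw [← Complex.exp_conj]
      congr 1
      simp only [map_mul, Complex.conj_ofReal, Complex.conj_I, map_ofNat, map_intCast]
      push_cast
      ring
    rw [h4, sub_eq_add_neg, ch_add]
    ring
  have hcont2 : ∀ k l : ℤ, Continuous fun t : ℝ => φ (t + k) * (starRingEnd ℂ) (φ (t + l)) := fun k l =>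
    (hcont.comp (continuous_id.add continuous_const)).mul
      (Complex.continuous_conj.comp (hcont.comp (continuous_id.add continuous_const)))
  have h5 : ((Ph φ ξ : ℝ) : ℂ) = ∑ l ∈ S, ∑ k ∈ S, ch (k - l) ξ * loc φ k l := by
    unfold Ph
    rw [← intervalIntegral.integral_ofReal, intervalIntegral.integral_congr h2,
      intervalIntegral.integral_finsetSum]
    · refine Finset.sum_congr rfl fun l _ => ?_
      rw [intervalIntegral.integral_finsetSum]
      · refine Finset.sum_congr rfl fun k _ => ?_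
        rw [intervalIntegral.integral_const_mul]
        rfl
      · intro k _
        exact ((hcont2 k l).const_mul _).intervalIntegrable _ _
    · intro l _
      exact (continuous_finsetSum _ fun k _ => (hcont2 k l).const_mul _).intervalIntegrable _ _
  rw [h5]
  have h6 : ∑ j ∈ J, ac φ j * ch j ξ = ∑ l ∈ S, ∑ j ∈ J, loc φ (l + j) l * ch j ξ := by
    rw [Finset.sum_comm]
    refine Finset.sum_congr rfl fun j _ => ?_
    rw [ac_eq hcont hc hS, Finset.sum_mul]
  rw [h6]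
  refine Finset.sum_congr rfl fun l hl => ?_
  -- reindex `k = l + j`
  have h7 : ∑ j ∈ J, loc φ (l + j) l * ch j ξ =
      ∑ k ∈ J.image (fun j => l + j), loc φ k l * ch (k - l) ξ := by
    rw [Finset.sum_image]
    · refine Finset.sum_congr rfl fun j _ => ?_
      rw [show l + j - l = j by ring]
    · intro a _ b _ hab
      simpa using hab
  rw [h7]
  have h8 : ∑ k ∈ S, ch (k - l) ξ * loc φ k l =
      ∑ k ∈ S, loc φ k l * ch (k - l) ξ := Finset.sum_congr rfl fun k _ => mul_comm _ _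
  rw [h8]
  apply Finset.sum_subset
  · intro k hk
    rw [Finset.mem_image]
    refine ⟨k - l, ?_, by ring⟩
    rw [Finset.mem_image₂]
    exact ⟨k, hk, l, hl, rfl⟩
  · intro k _ hk
    rw [loc_zero hS (Or.inl hk), zero_mul]

/-- the shifts `φ(· - k)`, `k ≠ 0`, are orthogonal to `φ` -/
def OrthShifts (φ : ℝ → ℂ) : Prop := ∀ k : ℤ, k ≠ 0 → ∫ t : ℝ, φ t * (starRingEnd ℂ) (φ (t - k)) = 0

lemma ac_shift (φ : ℝ → ℂ) (k : ℤ) : ∫ t : ℝ, φ t * (starRingEnd ℂ) (φ (t - k)) = ac φ k := by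
  unfold ac
  rw [← integral_add_right_eq_self (fun t : ℝ => φ t * (starRingEnd ℂ) (φ (t - k))) (k : ℝ)]
  refine integral_congr_ae (Eventually.of_forall fun t => ?_)
  simp only
  rw [add_sub_cancel_right]

lemma ac_zero_pos {φ : ℝ → ℂ} (hcont : Continuous φ) (hc : HasCompactSupport φ) (hφ : φ ≠ 0) :
    ac φ 0 ≠ 0 := by
  have h1 : ac φ 0 = ((∫ t : ℝ, ‖φ t‖ ^ 2 : ℝ) : ℂ) := by
    unfold ac
    rw [← integral_complex_ofReal]
    refine integral_congr_ae (Eventually.of_forall fun t => ?_)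
    simp only [Int.cast_zero, add_zero]
    rw [Complex.mul_conj, Complex.normSq_eq_norm_sq]
  rw [h1]
  obtain ⟨t₀, ht₀⟩ : ∃ t₀, φ t₀ ≠ 0 := by
    by_contra h
    push Not at h
    exact hφ (funext h)
  have h2 : 0 < ∫ t : ℝ, ‖φ t‖ ^ 2 := by
    have hcf : Continuous fun t => ‖φ t‖ ^ 2 := hcont.norm.pow 2
    apply hcf.integral_pos_of_hasCompactSupport_nonneg_nonzero (x := t₀)
    · exact hc.comp_left (g := fun z : ℂ => ‖z‖ ^ 2) (by simp)
    · intro t; positivity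
    · positivity
  exact_mod_cast h2.ne'

lemma Ph_continuous {φ : ℝ → ℂ} (hcont : Continuous φ) (hc : HasCompactSupport φ) :
    Continuous (Ph φ) := by
  obtain ⟨a, -, ha⟩ := exists_acf hcont hc
  have h1 : Ph φ = fun ξ => (symbol a ξ).re := by
    funext ξ
    rw [← ha ξ, Complex.ofReal_re]
  rw [h1]
  apply Complex.continuous_re.comp
  unfold symbol Finsupp.sum
  fun_prop

/-- **Dichotomy.** For a quadrature mirror filter the Zak transform of `φ` vanishes on a whole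
line if and only if the integer shifts of `φ` are not orthogonal. -/
theorem dichotomy {φ : ℝ → ℂ} (hcont : Continuous φ) (hc : HasCompactSupport φ)
    (hφ : φ ≠ 0) {d : ℤ →₀ ℂ} (hd : Dilation φ d) (hq : QMF d) :
    (∃ ξ : ℝ, ∀ t : ℝ, zak φ t ξ = 0) ↔ ¬ OrthShifts φ := by
  classical
  obtain ⟨a, ha, hs⟩ := exists_acf hcont hc
  constructor
  · rintro ⟨ξ, hξ⟩ ho
    have h1 : Ph φ ξ = 0 := Ph_of_line hξ
    have h2 : a = Finsupp.single 0 (ac φ 0) := by
      ext j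
      rw [ha j, Finsupp.single_apply]
      by_cases hj : 0 = j
      · rw [if_pos hj, hj]
      · rw [if_neg hj, ← ac_shift]
        exact ho j (Ne.symm hj)
    have h3 := hs ξ
    rw [h1, h2, symbol_eq, Finsupp.sum_single_index (by ring), ch_zero, mul_one] at h3
    exact ac_zero_pos hcont hc hφ (by rw [← h3]; simp)
  · intro ho
    unfold OrthShifts at ho
    push Not at ho
    obtain ⟨j, hj, hjne⟩ := ho
    rw [ac_shift] at hjne
    -- level sets are finite
    have hlevel : ∀ v : ℝ, {ξ : ℝ | ξ ∈ Set.Ico (0 : ℝ) 1 ∧ Ph φ ξ = v}.Finite := by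
      intro v
      have hb : (a - Finsupp.single (0 : ℤ) (v : ℂ) : ℤ →₀ ℂ) ≠ 0 := by
        intro h
        have h1 : (a - Finsupp.single (0 : ℤ) (v : ℂ) : ℤ →₀ ℂ) j = ac φ j := by
          rw [Finsupp.sub_apply, ha, Finsupp.single_apply, if_neg (Ne.symm hj), sub_zero]
        rw [h] at h1
        exact hjne h1.symm
      refine (symbol_zeros_finite hb).subset ?_
      intro ξ hξ
      refine ⟨hξ.1, ?_⟩
      have h1 : symbol (a - Finsupp.single (0 : ℤ) (v : ℂ) : ℤ →₀ ℂ) ξ = symbol a ξ - v := by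
        rw [symbol_eq, Finsupp.sum_sub_index]
        · rw [Finsupp.sum_single_index (by ring), ch_zero, mul_one]; rfl
        · intro k b₁ b₂; ring
      rw [h1, ← hs ξ, hξ.2, sub_self]
    -- extreme values
    have hext : ∀ v : ℝ, ((∀ ξ, v ≤ Ph φ ξ) ∨ (∀ ξ, Ph φ ξ ≤ v)) → ∀ ξ, Ph φ ξ = v →
        CyclicZero d ξ := by
      intro v hv ξ hξ
      refine cyclic_abstract hq.not_symmetric (fun ξ => Ph φ ξ = v) (fun ξ n => ?_)
        (hlevel v) ?_ hξ
      · rw [Ph_add_int]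
      · intro ξ hξ
        have h1 := Ph_eq hcont hc hd ξ
        have h2 := hq (ξ / 2)
        rw [hξ] at h1
        set w₁ := ‖symbol d (ξ / 2)‖ ^ 2 with hw1
        set w₂ := ‖symbol d (ξ / 2 + 1 / 2)‖ ^ 2 with hw2
        have hw1' : 0 ≤ w₁ := by positivity
        have hw2' : 0 ≤ w₂ := by positivity
        have h3 : w₁ * (Ph φ (ξ / 2) - v) + w₂ * (Ph φ (ξ / 2 + 1 / 2) - v) = 0 := by
          have : 4 * v = (w₁ + w₂) * v := by rw [h2]
          linarith
        have h4 : w₁ * (Ph φ (ξ / 2) - v) = 0 ∧ w₂ * (Ph φ (ξ / 2 + 1 / 2) - v) = 0 := by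
          rcases hv with hv | hv
          · have h5 : 0 ≤ w₁ * (Ph φ (ξ / 2) - v) :=
              mul_nonneg hw1' (sub_nonneg.2 (hv _))
            have h6 : 0 ≤ w₂ * (Ph φ (ξ / 2 + 1 / 2) - v) :=
              mul_nonneg hw2' (sub_nonneg.2 (hv _))
            constructor <;> linarith
          · have h5 : w₁ * (Ph φ (ξ / 2) - v) ≤ 0 :=
              mul_nonpos_of_nonneg_of_nonpos hw1' (sub_nonpos.2 (hv _))
            have h6 : w₂ * (Ph φ (ξ / 2 + 1 / 2) - v) ≤ 0 :=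
              mul_nonpos_of_nonneg_of_nonpos hw2' (sub_nonpos.2 (hv _))
            constructor <;> linarith
        constructor
        · rcases mul_eq_zero.1 h4.1 with h5 | h5
          · left
            rw [hw1] at h5
            exact norm_eq_zero.1 (pow_eq_zero_iff (two_ne_zero) |>.1 h5)
          · exact Or.inr (sub_eq_zero.1 h5)
        · rcases mul_eq_zero.1 h4.2 with h5 | h5
          · left
            rw [hw2] at h5
            exact norm_eq_zero.1 (pow_eq_zero_iff (two_ne_zero) |>.1 h5)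
          · exact Or.inr (sub_eq_zero.1 h5)
    -- minimum and maximum
    have hpc := Ph_continuous hcont hc
    have hfract : ∀ ξ, Ph φ (Int.fract ξ) = Ph φ ξ := by
      intro ξ
      have h1 := Ph_add_int φ (Int.fract ξ) ⌊ξ⌋
      rw [Int.fract_add_floor] at h1
      exact h1.symm
    have hIcc : ∀ ξ : ℝ, Int.fract ξ ∈ Set.Icc (0:ℝ) 1 := fun ξ =>
      ⟨Int.fract_nonneg _, (Int.fract_lt_one _).le⟩
    obtain ⟨x, -, hx⟩ := isCompact_Icc.exists_isMinOn (Set.nonempty_Icc.2 (zero_le_one (α := ℝ)))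
      hpc.continuousOn
    obtain ⟨y, -, hy⟩ := isCompact_Icc.exists_isMaxOn (Set.nonempty_Icc.2 (zero_le_one (α := ℝ)))
      hpc.continuousOn
    have hmin : ∀ ξ, Ph φ x ≤ Ph φ ξ := fun ξ => by
      rw [← hfract ξ]; exact hx (hIcc ξ)
    have hmax : ∀ ξ, Ph φ ξ ≤ Ph φ y := fun ξ => by
      rw [← hfract ξ]; exact hy (hIcc ξ)
    have hP0 : ∀ (z : ℝ) (n : ℤ), z = n → Ph φ z = Ph φ 0 := by
      intro z n hz
      have := Ph_add_int φ 0 n
      rw [zero_add] at this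
      rw [hz, this]
    by_cases h0 : Ph φ x = Ph φ 0
    · by_cases h1 : Ph φ y = Ph φ 0
      · exfalso
        have h2 : {ξ : ℝ | ξ ∈ Set.Ico (0 : ℝ) 1 ∧ Ph φ ξ = Ph φ 0} = Set.Ico (0:ℝ) 1 := by
          ext ξ
          constructor
          · exact fun h => h.1
          · exact fun h => ⟨h, le_antisymm ((hmax ξ).trans h1.le) (h0.symm.le.trans (hmin ξ))⟩
        have h3 := hlevel (Ph φ 0)
        rw [h2] at h3
        exact (Set.Ico_infinite (zero_lt_one (α := ℝ))) h3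
      · exfalso
        have h2 : CyclicZero d y := hext (Ph φ y) (Or.inr hmax) y rfl
        have h3 : ∀ n : ℤ, y ≠ n := fun n hn => h1 (hP0 y n hn)
        have h4 := Ph_of_line (line_of_cyclic hcont hc hd h3 h2)
        apply h1
        rw [h4]
        exact le_antisymm (Ph_nonneg _ _) ((hmax 0).trans h4.le)
    · have h2 : CyclicZero d x := hext (Ph φ x) (Or.inl hmin) x rfl
      have h3 : ∀ n : ℤ, x ≠ n := fun n hn => h0 (hP0 x n hn)
      exact ⟨x, line_of_cyclic hcont hc hd h3 h2⟩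

end Pool.Agent.Y796.RI
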