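import Pool.Agent.Y796.RI.Qmf

/-!
# Stretching and smoothing refinable functions
-/

open Filter Topology Complex MeasureTheory

namespace Pool.Agent.Y796.RI

open Pool.Agent.TH311.Rioul

/-- coefficients of the stretched dilation equation -/
noncomputable def stretch (m : ℕ) (d : ℤ →₀ ℂ) : ℤ →₀ ℂ := d.mapDomain fun k => (m : ℤ) * k

lemma stretch_sum (m : ℕ) (d : ℤ →₀ ℂ) (F : ℤ → ℂ) :
    ((stretch m d).sum fun k c => c * F k) = d.sum fun k c => c * F (m * k) := by
  unfold stretch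
  rw [Finsupp.sum_mapDomain_index]
  · intro k; rw [zero_mul]
  · intro k a b; rw [add_mul]

lemma symbol_stretch (m : ℕ) (d : ℤ →₀ ℂ) (ξ : ℝ) :
    symbol (stretch m d) ξ = symbol d (m * ξ) := by
  rw [symbol_eq, stretch_sum m d fun k => ch k ξ, symbol_eq]
  unfold Finsupp.sum
  refine Finset.sum_congr rfl fun k _ => ?_
  show d k * ch (m * k) ξ = d k * ch k (m * ξ)
  rw [mul_comm (m : ℤ) k, ch_mul]
  norm_num

lemma dilation_stretch {m : ℕ} (hm : m ≠ 0) {φ : ℝ → ℂ} {d : ℤ →₀ ℂ} (hd : Dilation φ d) :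
    Dilation (fun t => φ (t / m)) (stretch m d) := by
  intro t
  rw [stretch_sum m d fun k => φ ((t - k) / m)]
  show φ (t / 2 / m) = _
  rw [show t / 2 / (m : ℝ) = t / m / 2 by ring, hd (t / m)]
  unfold Finsupp.sum
  refine Finset.sum_congr rfl fun k _ => ?_
  have hm' : (m : ℝ) ≠ 0 := by exact_mod_cast hm
  have : (t - ((m * k : ℤ) : ℝ)) / m = t / m - k := by
    push_cast
    field_simp
  show d k * φ (t / m - k) = d k * φ ((t - ((m * k : ℤ) : ℝ)) / m)
  rw [this]

/-- an odd half is congruent to a half -/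
lemma odd_half {m : ℕ} (hm : Odd m) (d : ℤ →₀ ℂ) (x : ℝ) :
    symbol d (x + m / 2) = symbol d (x + 1 / 2) := by
  obtain ⟨q, rfl⟩ := hm
  have : x + ((2 * q + 1 : ℕ) : ℝ) / 2 = x + 1 / 2 + (q : ℤ) := by
    push_cast; ring
  rw [this, symbol_add_int]

lemma symbol_stretch_half {m : ℕ} (hm : Odd m) (d : ℤ →₀ ℂ) (ξ : ℝ) :
    symbol (stretch m d) (ξ + 1 / 2) = symbol d (m * ξ + 1 / 2) := by
  rw [symbol_stretch, ← odd_half hm, show (m : ℝ) * (ξ + 1 / 2) = m * ξ + m / 2 by ring]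

/-- reduction to the half open unit interval -/
lemma symmetric_iff (d : ℤ →₀ ℂ) :
    SymmetricZeros d ↔ ∃ ξ : ℝ, symbol d ξ = 0 ∧ symbol d (ξ + 1 / 2) = 0 := by
  constructor
  · rintro ⟨ξ, -, -, h⟩
    exact ⟨ξ, h⟩
  · rintro ⟨ξ, h1, h2⟩
    have e1 := symbol_add_int d (Int.fract ξ) ⌊ξ⌋
    have e2 := symbol_add_int d (Int.fract ξ + 1 / 2) ⌊ξ⌋
    rw [Int.fract_add_floor] at e1
    rw [show Int.fract ξ + 1 / 2 + (⌊ξ⌋ : ℝ) = (Int.fract ξ + ⌊ξ⌋) + 1 / 2 by ring,
      Int.fract_add_floor] at e2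
    exact ⟨Int.fract ξ, Int.fract_nonneg _, Int.fract_lt_one _, e1 ▸ h1, e2 ▸ h2⟩

lemma not_symmetric_stretch {m : ℕ} (hm : Odd m) {d : ℤ →₀ ℂ} (h : ¬ SymmetricZeros d) :
    ¬ SymmetricZeros (stretch m d) := by
  rw [symmetric_iff] at h ⊢
  rintro ⟨ξ, h1, h2⟩
  rw [symbol_stretch] at h1
  rw [symbol_stretch_half hm] at h2
  exact h ⟨_, h1, h2⟩

lemma qmf_stretch {m : ℕ} (hm : Odd m) {d : ℤ →₀ ℂ} (h : QMF d) : QMF (stretch m d) := by
  intro ξ
  rw [symbol_stretch, symbol_stretch_half hm]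
  exact h _

lemma cyclic_stretch {m : ℕ} (hm : Odd m) {d : ℤ →₀ ℂ} (h : symbol d (1 / 2) = 0) (j : ℤ) :
    CyclicZero (stretch m d) (j / m) := by
  have hm0 : 0 < m := hm.pos
  have hcop : Nat.Coprime 2 m := (Nat.coprime_two_left).2 hm
  have h1 : 2 ^ m.totient ≡ 1 [MOD m] := Nat.ModEq.pow_totient hcop
  have h2 : m ∣ 2 ^ m.totient - 1 := (Nat.modEq_iff_dvd' (Nat.one_le_two_pow)).1 h1.symm
  obtain ⟨q, hq⟩ := h2
  have h3 : (2 : ℝ) ^ m.totient = m * q + 1 := by
    have h4 : 2 ^ m.totient = m * q + 1 := by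
      have := Nat.one_le_two_pow (n := m.totient)
      omega
    exact_mod_cast h4
  have hm' : (m : ℝ) ≠ 0 := by exact_mod_cast hm0.ne'
  refine ⟨m.totient, Nat.totient_pos.2 hm0, ⟨q * j, ?_⟩, fun i _ => ?_⟩
  · rw [h3]
    push_cast
    field_simp
    ring
  · rw [symbol_stretch_half hm]
    have h5 : (m : ℝ) * (2 ^ i * ((j : ℝ) / m)) + 1 / 2 = 1 / 2 + ((2 ^ i * j : ℤ) : ℝ) := by
      push_cast
      field_simp
      ring
    rw [h5, symbol_add_int, h]

lemma ne_int_of_not_dvd {m : ℕ} (hm : m ≠ 0) {j : ℤ} (hj : ¬ (m : ℤ) ∣ j) (n : ℤ) :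
    ((j : ℝ) / m) ≠ n := by
  intro h
  have hm' : (m : ℝ) ≠ 0 := by exact_mod_cast hm
  rw [div_eq_iff hm'] at h
  apply hj
  refine ⟨n, ?_⟩
  have : (j : ℝ) = ((m * n : ℤ) : ℝ) := by push_cast; linarith
  exact_mod_cast this

/-- the stretched function: continuity and support -/
lemma stretch_continuous {φ : ℝ → ℂ} (h : Continuous φ) (m : ℕ) :
    Continuous fun t : ℝ => φ (t / m) := h.comp (continuous_id.div_const _)

lemma stretch_compact {φ : ℝ → ℂ} (h : HasCompactSupport φ) {m : ℕ} (hm : m ≠ 0) :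
    HasCompactSupport fun t : ℝ => φ (t / m) := by
  have hm' : (m : ℝ) ≠ 0 := by exact_mod_cast hm
  have h1 : (fun t : ℝ => φ (t / m)) = φ ∘ (Homeomorph.mulRight₀ ((m : ℝ)⁻¹) (inv_ne_zero hm')) := by
    funext t
    simp [div_eq_mul_inv]
  rw [h1]
  exact h.comp_homeomorph _

lemma stretch_ne_zero {φ : ℝ → ℂ} (h : φ ≠ 0) {m : ℕ} (hm : m ≠ 0) :
    (fun t : ℝ => φ (t / m)) ≠ 0 := by
  have hm' : (m : ℝ) ≠ 0 := by exact_mod_cast hm
  intro h0
  apply h
  funext t
  have := congrFun h0 (t * m)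
  simpa [mul_div_cancel_right₀ _ hm'] using this

/-- **Every refinable function has stretched versions with zero lines.** -/
theorem stretch_lines {φ : ℝ → ℂ} (hcont : Continuous φ) (hc : HasCompactSupport φ)
    {d : ℤ →₀ ℂ} (hd : Dilation φ d) (h2 : symbol d (1 / 2) = 0) {m : ℕ} (hm : Odd m) {j : ℤ}
    (hj : ¬ (m : ℤ) ∣ j) (t : ℝ) : zak (fun t => φ (t / m)) t (j / m) = 0 := by
  have hm0 : m ≠ 0 := hm.pos.ne'
  exact line_of_cyclic (stretch_continuous hcont m) (stretch_compact hc hm0)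
    (dilation_stretch hm0 hd) (ne_int_of_not_dvd hm0 hj) (cyclic_stretch hm h2 j) t

/-- smoothing: integral over the unit interval to the left -/
noncomputable def sm (φ : ℝ → ℂ) (t : ℝ) : ℂ := ∫ s in (t - 1)..t, φ s

lemma sm_hasDerivAt {φ : ℝ → ℂ} (h : Continuous φ) (t : ℝ) :
    HasDerivAt (sm φ) (φ t - φ (t - 1)) t := by
  have hF : ∀ x, HasDerivAt (fun u => ∫ s in (0:ℝ)..u, φ s) (φ x) x := fun x =>
    intervalIntegral.integral_hasDerivAt_right (h.intervalIntegrable _ _)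
      h.aestronglyMeasurable.stronglyMeasurableAtFilter h.continuousAt
  have h1 : sm φ = fun t => (∫ s in (0:ℝ)..t, φ s) - ∫ s in (0:ℝ)..(t - 1), φ s := by
    funext t
    unfold sm
    rw [intervalIntegral.integral_interval_sub_left (h.intervalIntegrable _ _)
      (h.intervalIntegrable _ _)]
  rw [h1]
  have h2 : HasDerivAt (fun u : ℝ => ∫ s in (0:ℝ)..(u - 1), φ s) (φ (t - 1)) t := by
    have := (hF (t - 1)).comp_sub_const t 1
    exact this
  exact (hF t).sub h2

lemma sm_deriv {φ : ℝ → ℂ} (h : Continuous φ) : deriv (sm φ) = fun t => φ t - φ (t - 1) :=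
  funext fun t => (sm_hasDerivAt h t).deriv

lemma sm_contDiff {φ : ℝ → ℂ} {r : ℕ} (h : ContDiff ℝ r φ) : ContDiff ℝ (r + 1 : ℕ) (sm φ) := by
  have hc : Continuous φ := h.continuous
  have : ((r + 1 : ℕ) : WithTop ℕ∞) = (r : WithTop ℕ∞) + 1 := by push_cast; rfl
  rw [this, contDiff_succ_iff_deriv]
  refine ⟨fun t => (sm_hasDerivAt hc t).differentiableAt, ?_, ?_⟩
  · intro h1
    exact absurd h1 (by simp)
  · rw [sm_deriv hc]
    exact h.sub (h.comp (contDiff_id.sub contDiff_const))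

lemma sm_compact {φ : ℝ → ℂ} (hc : HasCompactSupport φ) : HasCompactSupport (sm φ) := by
  obtain ⟨R, hR⟩ := hc.isCompact.isBounded.subset_closedBall 0
  have h1 : ∀ x : ℝ, φ x ≠ 0 → |x| ≤ R := by
    intro x hx
    have h2 := hR (subset_tsupport φ hx)
    simpa [Metric.mem_closedBall, Real.dist_eq] using h2
  apply HasCompactSupport.intro (isCompact_Icc (a := -R - 1) (b := R + 1))
  intro t ht
  unfold sm
  rw [intervalIntegral.integral_congr (g := fun _ => (0:ℂ)), intervalIntegral.integral_zero]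
  intro s hs
  rw [Set.uIcc_of_le (by linarith)] at hs
  simp only
  by_contra hne
  have h2 := abs_le.1 (h1 s hne)
  apply ht
  constructor <;> linarith [hs.1, hs.2, h2.1, h2.2]

lemma sm_ne_zero {φ : ℝ → ℂ} (h : Continuous φ) (hc : HasCompactSupport φ) (hφ : φ ≠ 0) :
    sm φ ≠ 0 := by
  intro h0
  have h1 : ∀ t, φ t = φ (t - 1) := by
    intro t
    have h2 := sm_hasDerivAt h t
    rw [h0] at h2
    have h3 := h2.unique (hasDerivAt_const t (0:ℂ))
    exact sub_eq_zero.1 h3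
  obtain ⟨t₀, ht₀⟩ : ∃ t₀, φ t₀ ≠ 0 := by
    by_contra hh
    push Not at hh
    exact hφ (funext hh)
  have h2 : ∀ n : ℕ, φ (t₀ + n) = φ t₀ := by
    intro n
    induction n with
    | zero => simp
    | succ n ih =>
      rw [h1, ← ih]
      congr 1
      push_cast
      ring
  have h3 := supp_finite_one hc t₀
  have h4 : Set.range (fun n : ℕ => (n : ℤ)) ⊆ Function.support fun k : ℤ => φ (t₀ + k) := by
    rintro _ ⟨n, rfl⟩
    rw [Function.mem_support]
    push_cast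
    rw [h2]
    exact ht₀
  exact (Set.infinite_range_of_injective Nat.cast_injective) (h3.subset h4)

/-- coefficients of the smoothed dilation equation -/
noncomputable def smc (d : ℤ →₀ ℂ) : ℤ →₀ ℂ :=
  (1 / 2 : ℂ) • d + (1 / 2 : ℂ) • d.mapDomain fun k => k + 1

lemma smc_sum (d : ℤ →₀ ℂ) (F : ℤ → ℂ) : ((smc d).sum fun k c => c * F k) =
    1 / 2 * (d.sum fun k c => c * F k) + 1 / 2 * d.sum fun k c => c * F (k + 1) := by
  unfold smc
  have h0 : ∀ a : ℤ, (0:ℂ) * F a = 0 := fun a => zero_mul _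
  have hadd : ∀ (a : ℤ) (b₁ b₂ : ℂ), (b₁ + b₂) * F a = b₁ * F a + b₂ * F a :=
    fun a b₁ b₂ => add_mul _ _ _
  rw [Finsupp.sum_add_index' h0 hadd, Finsupp.sum_smul_index h0, Finsupp.sum_smul_index h0,
    Finsupp.sum_mapDomain_index (fun a => by rw [mul_zero, zero_mul])
      (fun a b₁ b₂ => by ring)]
  unfold Finsupp.sum
  rw [Finset.mul_sum, Finset.mul_sum]
  congr 1
  · refine Finset.sum_congr rfl fun k _ => by ring
  · refine Finset.sum_congr rfl fun k _ => by ring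

lemma symbol_smc (d : ℤ →₀ ℂ) (ξ : ℝ) :
    symbol (smc d) ξ = (1 + ch 1 ξ) / 2 * symbol d ξ := by
  rw [symbol_eq, smc_sum d fun k => ch k ξ, symbol_eq]
  unfold Finsupp.sum
  have : ∑ k ∈ d.support, d k * ch (k + 1) ξ = ch 1 ξ * ∑ k ∈ d.support, d k * ch k ξ := by
    rw [Finset.mul_sum]
    refine Finset.sum_congr rfl fun k _ => ?_
    rw [ch_add]; ring
  rw [this]
  ring

lemma sm_dilation {φ : ℝ → ℂ} (h : Continuous φ) {d : ℤ →₀ ℂ} (hd : Dilation φ d) :
    Dilation (sm φ) (smc d) := by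
  intro t
  rw [smc_sum d fun k => sm φ (t - k)]
  have h1 : sm φ (t / 2) = 1 / 2 * ∫ s in (t - 2)..t, φ (s / 2) := by
    unfold sm
    rw [intervalIntegral.integral_comp_div (fun s => φ s) (two_ne_zero)]
    rw [show (t - 2) / 2 = t / 2 - 1 by ring, Complex.real_smul]
    push_cast
    ring
  have h2 : ∫ s in (t - 2)..t, φ (s / 2) =
      ∑ k ∈ d.support, d k * ∫ s in (t - 2)..t, φ (s - k) := by
    have h3 : ∀ s, φ (s / 2) = ∑ k ∈ d.support, d k * φ (s - k) := fun s => hd s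
    simp only [h3]
    rw [intervalIntegral.integral_finsetSum]
    · refine Finset.sum_congr rfl fun k _ => ?_
      rw [intervalIntegral.integral_const_mul]
    · intro k _
      exact ((h.comp (continuous_id.sub continuous_const)).const_mul _).intervalIntegrable _ _
  have h4 : ∀ k : ℤ, ∫ s in (t - 2)..t, φ (s - k) = sm φ (t - k) + sm φ (t - (k + 1 : ℤ)) := by
    intro k
    rw [intervalIntegral.integral_comp_sub_right (fun s => φ s) (k : ℝ)]
    unfold sm
    have h5 := intervalIntegral.integral_add_adjacent_intervals (μ := volume) (f := φ)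
      (a := t - 2 - k) (b := t - 1 - k) (c := t - k) (h.intervalIntegrable _ _)
      (h.intervalIntegrable _ _)
    rw [← h5]
    push_cast
    rw [show t - ((k : ℝ) + 1) - 1 = t - 2 - k by ring, show t - ((k : ℝ) + 1) = t - 1 - k by ring,
      show t - (k : ℝ) - 1 = t - 1 - k by ring]
    ring
  rw [h1, h2]
  unfold Finsupp.sum
  rw [Finset.mul_sum, Finset.mul_sum, Finset.mul_sum, ← Finset.sum_add_distrib]
  refine Finset.sum_congr rfl fun k _ => ?_
  rw [h4]
  ring

lemma smc_zero {d : ℤ →₀ ℂ} : symbol (smc d) 0 = symbol d 0 := by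
  rw [symbol_smc, ch_zero']
  norm_num

lemma smc_half {d : ℤ →₀ ℂ} : symbol (smc d) (1 / 2) = 0 := by
  rw [symbol_smc, ch_one_half]
  norm_num

lemma smc_not_symmetric {d : ℤ →₀ ℂ} (h0 : symbol d 0 ≠ 0) (h : ¬ SymmetricZeros d) :
    ¬ SymmetricZeros (smc d) := by
  rw [symmetric_iff] at h ⊢
  rintro ⟨ξ, h1, h2⟩
  rw [symbol_smc] at h1 h2
  have hhalf : ch 1 (ξ + 1 / 2) = - ch 1 ξ := by
    rw [ch_add', ch_one_half]; ring
  rw [hhalf] at h2
  -- a unit number equal to ±1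
  have hone : ∀ x : ℝ, ch 1 x = 1 → symbol d x = symbol d 0 := by
    intro x hx
    unfold ch at hx
    rw [Complex.exp_eq_one_iff] at hx
    obtain ⟨n, hn⟩ := hx
    have h5 : (2 * (Real.pi : ℂ) * I) * ((x : ℂ) - n) = 0 := by
      push_cast at hn
      linear_combination hn
    rcases mul_eq_zero.1 h5 with h6 | h6
    · exact absurd h6 Complex.two_pi_I_ne_zero
    · have h7 : x = 0 + (n : ℝ) := by
        have : x - n = 0 := by exact_mod_cast h6
        linarith
      rw [h7, symbol_add_int]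
  rcases mul_eq_zero.1 h1 with h3 | h3
  · have hz : ch 1 ξ = -1 := by
      have : 1 + ch 1 ξ = 0 := by
        linear_combination 2 * h3
      linear_combination this
    rw [hz] at h2
    have h4 : symbol d (ξ + 1 / 2) = 0 := by
      linear_combination h2
    rw [hone (ξ + 1 / 2) (by rw [hhalf, hz]; ring)] at h4
    exact h0 h4
  · rcases mul_eq_zero.1 h2 with h4 | h4
    · have hz : ch 1 ξ = 1 := by
        have : 1 + -ch 1 ξ = 0 := by
          linear_combination 2 * h4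
        linear_combination -this
      rw [hone ξ hz] at h3
      exact h0 h3
    · exact h ⟨ξ, h3, h4⟩

end Pool.Agent.Y796.RI
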